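import Pool.Agent.U372.PX.Poly
import Pool.Agent.U372.HX.Dom2

/-! # The six directions and the bound in a bounded domain -/

set_option autoImplicit false

namespace Pool.Agent.U372.PX

open scoped ENNReal Classical
open Pool.Agent.U372.HX
open Pool.Agent.W832.HR (emb lv HD Hd Bd Z xc lv_le lv_sub lv_emb s3_le s3_ge)

/-- rotation by 60 degrees -/
def ta (v : V) : V := ((v.1 - 3 * v.2 - 1) / 2, (v.1 + v.2) / 2)

/-- `exp (i π / 3)` -/
noncomputable def zt : ℂ := ⟨1 / 2, Real.sqrt 3 / 2⟩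

theorem ta_inj : Function.Injective ta := by
  rintro ⟨a, b⟩ ⟨c, d⟩ h
  unfold ta at h
  simp only [Prod.mk.injEq] at h ⊢
  omega

theorem ta_nbr {p q : V} (h : Nbr p q) : Nbr (ta p) (ta q) := by
  obtain ⟨a, b⟩ := p
  obtain ⟨c, d⟩ := q
  unfold Nbr at *
  unfold ta
  simp only [Int.even_iff] at *
  omega

theorem emb_ta (v : V) : emb (ta v) = zt * emb v + ⟨-(Real.sqrt 3 / 4), -(1 / 4)⟩ := by
  obtain ⟨x, y⟩ := v
  have h3 := Pool.Agent.W832.HR.s3
  rcases Int.even_or_odd (x + y) with he | ho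
  · obtain ⟨k, hk⟩ := he
    have hx : x = 2 * k - y := by omega
    subst hx
    have e1 : ta (2 * k - y, y) = (k - 2 * y - 1, k) := by
      unfold ta
      simp only [Prod.mk.injEq]
      omega
    rw [e1]
    have hep : Even (2 * k - y + y) := ⟨k, by omega⟩
    apply Complex.ext
    · rw [Complex.add_re, Complex.mul_re]
      unfold emb zt
      simp only
      rw [if_pos hep]
      push_cast
      ring
    · rw [Complex.add_im, Complex.mul_im]
      unfold emb zt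
      simp only
      rw [if_pos hep, if_neg (by
        rw [Int.not_even_iff_odd, Int.odd_iff]
        omega)]
      push_cast
      linear_combination (-(2 * (k : ℝ) - y) / 4) * h3
  · obtain ⟨k, hk⟩ := ho
    have hx : x = 2 * k + 1 - y := by omega
    subst hx
    have e1 : ta (2 * k + 1 - y, y) = (k - 2 * y, k) := by
      unfold ta
      simp only [Prod.mk.injEq]
      omega
    rw [e1]
    have hne : ¬ Even (2 * k + 1 - y + y) := by
      rw [Int.not_even_iff_odd, Int.odd_iff]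
      omega
    apply Complex.ext
    · rw [Complex.add_re, Complex.mul_re]
      unfold emb zt
      simp only
      rw [if_neg hne]
      push_cast
      ring
    · rw [Complex.add_im, Complex.mul_im]
      unfold emb zt
      simp only
      rw [if_neg hne, if_pos (by
        rw [Int.even_iff]
        omega)]
      push_cast
      linear_combination (-(2 * (k : ℝ) + 1 - y) / 4) * h3

theorem norm_zt : ‖zt‖ = 1 := by
  have h : ‖zt‖ ^ 2 = 1 := by
    rw [← Complex.normSq_eq_norm_sq]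
    unfold zt
    rw [Complex.normSq_mk]
    have h3 := Pool.Agent.W832.HR.s3
    linarith
  exact (pow_eq_one_iff_of_nonneg (norm_nonneg _) two_ne_zero).1 h

theorem iter (j : ℕ) : ∃ c : ℂ, ‖c‖ ≤ j ∧ ∀ v, emb (ta^[j] v) = zt ^ j * emb v + c := by
  induction j with
  | zero => exact ⟨0, by simp, fun v => by simp⟩
  | succ j ih =>
    obtain ⟨c, hc, h⟩ := ih
    refine ⟨zt * c + ⟨-(Real.sqrt 3 / 4), -(1 / 4)⟩, ?_, fun v => ?_⟩
    · refine (norm_add_le _ _).trans ?_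
      rw [norm_mul, norm_zt, one_mul]
      push_cast
      refine add_le_add hc ?_
      refine (Complex.norm_le_abs_re_add_abs_im _).trans ?_
      simp only
      rw [abs_neg, abs_neg, abs_of_nonneg (by positivity), abs_of_nonneg (by norm_num)]
      have := s3_le
      linarith
    · rw [Function.iterate_succ_apply', emb_ta, h]
      ring

theorem it_inj (j : ℕ) : Function.Injective (ta^[j]) := ta_inj.iterate j

theorem it_nbr (j : ℕ) {p q : V} (h : Nbr p q) : Nbr (ta^[j] p) (ta^[j] q) := by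
  induction j with
  | zero => exact h
  | succ j ih =>
    rw [Function.iterate_succ_apply', Function.iterate_succ_apply']
    exact ta_nbr ih

/-- union bound -/
theorem tot_fin {ι : Type*} (F : Finset ι) (S : Set (List V)) (T : ι → Set (List V))
    (h : ∀ l ∈ S, ∃ i ∈ F, l ∈ T i) : tot wt S ≤ ∑ i ∈ F, tot wt (T i) := by
  unfold tot
  rw [← Summable.tsum_finsetSum (fun i _ => ENNReal.summable)]
  refine ENNReal.tsum_le_tsum (fun l => ?_)
  by_cases hl : l ∈ S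
  · obtain ⟨i, hi, hli⟩ := h l hl
    rw [Set.indicator_of_mem hl]
    calc wt l = (T i).indicator wt l := (Set.indicator_of_mem hli _).symm
      _ ≤ _ := Finset.single_le_sum (f := fun i => (T i).indicator wt l) (fun _ _ => zero_le) hi
  · rw [Set.indicator_of_notMem hl]
    exact zero_le

/-- the bad walks for one direction, one level, one distance -/
def Ev (D : Set V) (p q : V) (j : ℕ) (c : ℤ) (r m : ℕ) : Set (List V) :=
  {l | l ∈ Tr D p q ∧ (∀ v ∈ l, c ≤ lev (ta^[j] v)) ∧ m ≤ (Lo c r (l.map ta^[j])).card}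

theorem fixed (M : ℝ) (hM : 0 ≤ M) : ∃ K : ℝ, 0 ≤ K ∧ ∀ δ : ℝ, 0 < δ → δ ≤ 1 / 2 →
    ∀ D : Set V, (∀ v ∈ D, ‖(δ : ℂ) * emb v‖ ≤ M) → ∀ (p q : V) (j : ℕ), j < 6 →
      ∀ (c : ℤ) (r N m s P : ℕ), 1 ≤ N → r ≤ N → 63 * (N : ℝ) * δ ≤ 1 →
      1 ≤ (P : ℝ≥0∞) * Lam N →
      400 * N ^ 3 * (64 * (7225 * N ^ 2 * s) * P + s + 2) + s ≤ m →
      (4 : ℝ≥0∞) ^ s * tot wt (Ev D p q j c r m) ≤
        ENNReal.ofReal (Real.exp (K * Real.log (1 / δ) ^ 2)) := by
  obtain ⟨K, hK, hq⟩ := Pool.Agent.Y981.Sup.quasi (M + 4) (by linarith)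
  refine ⟨K, hK, ?_⟩
  intro δ hδ hδ2 D hD p q j hj c r N m s P hN hr hNδ hP hm
  obtain ⟨cc, hcc, hemb⟩ := iter j
  have h1 := cnt (fun _ => {l | l.head? = some (ta^[j] p) ∧ l.getLast? = some (ta^[j] q)})
    (ta^[j] '' D) c r N m s P hN hr (by
      rintro _ l ⟨h1, h2⟩ v t g L W hW
      obtain ⟨e1, e2⟩ := hW.ends
      exact ⟨e1.trans h1, e2.trans h2⟩) hP hm
  have h2 : tot wt (Ev D p q j c r m) ≤ tot wt {l | l ∈ {l : List V |
      l.head? = some (ta^[j] p) ∧ l.getLast? = some (ta^[j] q)} ∧ l.Nodup ∧ l.IsChain Nbr ∧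
      (∀ v ∈ l, v ∈ ta^[j] '' D ∧ c ≤ lev v) ∧ m ≤ (Lo c r l).card} := by
    unfold tot
    refine le_trans (ENNReal.tsum_le_tsum (fun l => ?_)) (ENNReal.tsum_comp_le_tsum_of_injective
      (List.map_injective_iff.2 (it_inj j)) _)
    by_cases hl : l ∈ Ev D p q j c r m
    · obtain ⟨⟨g1, g2, g3, g4, g5⟩, g6, g7⟩ := hl
      rw [Set.indicator_of_mem (show l ∈ Ev D p q j c r m from ⟨⟨g1, g2, g3, g4, g5⟩, g6, g7⟩)]
      rw [Set.indicator_of_mem]
      · unfold wt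
        rw [List.length_map]
      · refine ⟨⟨?_, ?_⟩, g3.map (it_inj j), ?_, ?_, g7⟩
        · rw [List.head?_map, g1]
          rfl
        · rw [List.getLast?_map, g2]
          rfl
        · rw [List.isChain_map]
          exact g4.imp (fun a b h => it_nbr j h)
        · intro v hv
          obtain ⟨u, hu, rfl⟩ := List.mem_map.1 hv
          exact ⟨⟨u, g5 u hu, rfl⟩, g6 u hu⟩
    · rw [Set.indicator_of_notMem hl]
      exact zero_le
  have h3 : tot wt {l | l ∈ {l : List V |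
      l.head? = some (ta^[j] p) ∧ l.getLast? = some (ta^[j] q)} ∧ l.Nodup ∧ l.IsChain Nbr ∧
      ∀ w ∈ l, ∃ a ∈ ta^[j] '' D, cl (21 * N) a w} ≤
      Z {w | ∃ a ∈ ta^[j] '' D, cl (21 * N) a w} (ta^[j] p) (ta^[j] q) := by
    rw [← tot_wt]
    exact tot_mono wt (fun l hl => ⟨hl.1.1, hl.1.2, hl.2.1, hl.2.2.1, hl.2.2.2⟩)
  have h4 := hq δ hδ hδ2 {w | ∃ a ∈ ta^[j] '' D, cl (21 * N) a w} (by
    rintro w ⟨a, ⟨a', ha', rfl⟩, haw⟩
    have e0 : cl ((21 * N : ℕ) : ℤ) (ta^[j] a') w := by push_cast; exact haw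
    have e1 := emb_dist e0 (by omega)
    have e2 : (δ : ℂ) * emb w = (δ : ℂ) * (zt ^ j * emb a') +
        ((δ : ℂ) * cc + (δ : ℂ) * (emb w - emb (ta^[j] a'))) := by
      rw [hemb]
      ring
    rw [e2]
    have f1 : ‖(δ : ℂ) * (zt ^ j * emb a')‖ ≤ M := by
      have := hD a' ha'
      rw [norm_mul, norm_mul, norm_pow, norm_zt, one_pow, one_mul]
      rwa [norm_mul] at this
    have f2 : ‖(δ : ℂ) * cc‖ ≤ 3 := by
      rw [norm_mul, Complex.norm_real, Real.norm_of_nonneg hδ.le]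
      have hj' : (j : ℝ) ≤ 6 := by exact_mod_cast hj.le
      nlinarith [norm_nonneg cc]
    have f3 : ‖(δ : ℂ) * (emb w - emb (ta^[j] a'))‖ ≤ 1 := by
      rw [norm_mul, Complex.norm_real, Real.norm_of_nonneg hδ.le]
      push_cast at e1
      nlinarith
    have g1 := norm_add_le ((δ : ℂ) * (zt ^ j * emb a'))
      ((δ : ℂ) * cc + (δ : ℂ) * (emb w - emb (ta^[j] a')))
    have g2 := norm_add_le ((δ : ℂ) * cc) ((δ : ℂ) * (emb w - emb (ta^[j] a')))
    linarith) (ta^[j] p) (ta^[j] q)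
  exact ((mul_le_mul_right h2 _).trans h1).trans (h3.trans h4)

/-- the number of vertices close to the supporting line -/
noncomputable def sup (j : ℕ) (R : ℝ) (l : List V) : ℕ :=
  {v | v ∈ l ∧ ∀ u ∈ l, lv (zt ^ j * emb v) ≤ lv (zt ^ j * emb u) + R}.ncard

theorem lv_add (z w : ℂ) : lv (z + w) = lv z + lv w := by
  unfold lv
  rw [Complex.add_re, Complex.add_im]
  ring

theorem sup_le {D : Set V} {p q : V} {l : List V} (hl : l ∈ Tr D p q) (j : ℕ) {R : ℝ} {r : ℕ}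
    (hr : 2 * R + 1 ≤ r) (hR : 1 ≤ R) :
    ∃ v0 ∈ l, (∀ v ∈ l, lev (ta^[j] v0) ≤ lev (ta^[j] v)) ∧
      sup j R l ≤ (Lo (lev (ta^[j] v0)) r (l.map ta^[j])).card := by
  obtain ⟨cc, hcc, hemb⟩ := iter j
  have hne : l.toFinset.Nonempty := ⟨p, List.mem_toFinset.2 (List.mem_of_mem_head? hl.1)⟩
  obtain ⟨v0, hv0, hmin⟩ := l.toFinset.exists_min_image (fun v => lev (ta^[j] v)) hne
  rw [List.mem_toFinset] at hv0
  have hmin' : ∀ v ∈ l, lev (ta^[j] v0) ≤ lev (ta^[j] v) :=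
    fun v hv => hmin v (List.mem_toFinset.2 hv)
  refine ⟨v0, hv0, hmin', ?_⟩
  unfold sup
  rw [← Set.ncard_coe_finset (Lo (lev (ta^[j] v0)) r (l.map ta^[j]))]
  refine Set.ncard_le_ncard_of_injOn (ta^[j]) ?_ ((it_inj j).injOn) (Finset.finite_toSet _)
  rintro v ⟨hv, hlow⟩
  rw [Finset.mem_coe]
  unfold Lo
  rw [Finset.mem_filter, List.mem_toFinset]
  refine ⟨List.mem_map.2 ⟨v, hv, rfl⟩, hmin' v hv, ?_⟩
  have h1 := hlow v0 hv0
  have e1 : ∀ w, lv (zt ^ j * emb w) = lv (emb (ta^[j] w)) - lv cc := by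
    intro w
    rw [hemb, lv_add]
    ring
  rw [e1, e1] at h1
  have b1 := (lev_bounds (ta^[j] v)).1
  have b2 := (lev_bounds (ta^[j] v0)).2
  have h2 : (lev (ta^[j] v) : ℝ) ≤ lev (ta^[j] v0) + r := by linarith
  exact_mod_cast h2

theorem lev_small {M δ : ℝ} (hM : 0 ≤ M) (hδ : 0 < δ) (hδ1 : δ ≤ 1) {v : V}
    (hv : ‖(δ : ℂ) * emb v‖ ≤ M) {j : ℕ} (hj : j < 6) :
    |(lev (ta^[j] v) : ℝ)| ≤ 2 * (M + 8) * (1 / δ) := by
  obtain ⟨cc, hcc, hemb⟩ := iter j
  have h1 : ‖emb (ta^[j] v)‖ ≤ (M + 6) * (1 / δ) := by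
    rw [hemb]
    refine (norm_add_le _ _).trans ?_
    rw [norm_mul, norm_pow, norm_zt, one_pow, one_mul]
    rw [norm_mul, Complex.norm_real, Real.norm_of_nonneg hδ.le] at hv
    have h2 : ‖emb v‖ ≤ M * (1 / δ) := by
      rw [mul_one_div, le_div_iff₀ hδ]
      linarith
    have h3 : (1 : ℝ) ≤ 1 / δ := by
      rw [le_div_iff₀ hδ]
      linarith
    have hj' : (j : ℝ) ≤ 6 := by exact_mod_cast hj.le
    nlinarith
  have h2 := (lv_le (emb (ta^[j] v))).trans h1
  have h3 : (1 : ℝ) ≤ 1 / δ := by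
    rw [le_div_iff₀ hδ]
    linarith
  obtain ⟨b1, b2⟩ := lev_bounds (ta^[j] v)
  rw [abs_le] at h2 ⊢
  have h4 : 0 ≤ M * (1 / δ) := by positivity
  constructor <;> nlinarith [h2.1, h2.2]

end Pool.Agent.U372.PX
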