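import Pool.Agent.U372.PX.Ins
import Pool.Agent.U372.HX.Dom

/-! # Few locally lowest vertices: insertion of polygons -/

set_option autoImplicit false

namespace Pool.Agent.U372.PX

open scoped ENNReal Classical
open Pool.Agent.U372.HX
open Pool.Agent.W832.HR (xc)

/-- total weight of the polygons -/
noncomputable def Lam (N : ℕ) : ℝ≥0∞ := ∑' L : Lp N, xc ^ L.1.length

theorem xc_two' : 1 ≤ 4 * xc ^ 2 := by
  unfold xc
  rw [← ENNReal.ofReal_pow (by positivity), show (4 : ℝ≥0∞) = ENNReal.ofReal 4 by norm_num,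
    ← ENNReal.ofReal_mul (by positivity), ENNReal.one_le_ofReal]
  have h3 : Real.sqrt (2 + Real.sqrt 2) ^ 2 = 2 + Real.sqrt 2 := Real.sq_sqrt (by positivity)
  rw [div_pow, one_pow, h3]
  have h5 : Real.sqrt 2 ≤ 3 / 2 := by
    rw [Real.sqrt_le_left (by norm_num)]
    norm_num
  rw [mul_one_div, le_div_iff₀ (by positivity)]
  linarith

theorem wt_ins {N : ℕ} {l : List V} {v : V} {t g : Bool} {L W : List V}
    (h : Ins N l v t g L W) : wt l * xc ^ L.length ≤ 4 * wt W := by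
  obtain ⟨h1, h2⟩ := h.length
  unfold wt
  rw [← pow_add]
  have h3 : xc ^ (l.length - 1 + L.length + 2) ≤ xc ^ (W.length - 1) :=
    pow_le_pow_right_of_le_one' xc_le (by omega)
  calc xc ^ (l.length - 1 + L.length) = xc ^ (l.length - 1 + L.length) * 1 := (mul_one _).symm
    _ ≤ xc ^ (l.length - 1 + L.length) * (4 * xc ^ 2) := mul_le_mul_right xc_two' _
    _ = 4 * xc ^ (l.length - 1 + L.length + 2) := by rw [pow_add _ _ 2]; ring
    _ ≤ _ := mul_le_mul_right h3 _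

/-- sum over marked walks -/
theorem marked' (w : List V → ℝ≥0∞) (S : Set (List V))
    (Q : List V → Finset (V × Bool × Bool)) :
    ∑' p : {p : List V × (V × Bool × Bool) | p.1 ∈ S ∧ p.2 ∈ Q p.1}, w p.1.1 =
      ∑' l, S.indicator (fun l => ((Q l).card : ℝ≥0∞) * w l) l := by
  rw [tsum_subtype {p : List V × (V × Bool × Bool) | p.1 ∈ S ∧ p.2 ∈ Q p.1} (fun p => w p.1),
    ENNReal.tsum_prod']
  refine tsum_congr (fun l => ?_)
  by_cases h : l ∈ S
  · rw [Set.indicator_of_mem h]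
    rw [tsum_eq_sum (s := Q l)]
    · rw [← nsmul_eq_mul, ← Finset.sum_const]
      refine Finset.sum_congr rfl (fun i hi => ?_)
      rw [Set.indicator_of_mem]
      exact ⟨h, hi⟩
    · intro i hi
      rw [Set.indicator_of_notMem]
      exact fun h' => hi h'.2
  · rw [Set.indicator_of_notMem h]
    rw [ENNReal.tsum_eq_zero]
    intro i
    rw [Set.indicator_of_notMem]
    exact fun h' => h h'.1

/-- one insertion -/
theorem one' (N : ℕ) (S S' : Set (List V)) (Q Q' : List V → Finset (V × Bool × Bool)) (J M : ℕ)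
    (h1 : ∀ l ∈ S, ∀ i ∈ Q l, ∀ L ∈ Lp N, ∃ W ∈ S', Ins N l i.1 i.2.1 i.2.2 L W ∧ i ∈ Q' W)
    (hJ : ∀ l ∈ S, J ≤ (Q l).card) (hM : ∀ W ∈ S', (Q' W).card ≤ M) :
    (J : ℝ≥0∞) * tot wt S * Lam N ≤ 4 * (M * tot wt S') := by
  choose! F hF1 hF2 hF3 using h1
  have e1 : (J : ℝ≥0∞) * tot wt S ≤
      ∑' l, S.indicator (fun l => ((Q l).card : ℝ≥0∞) * wt l) l := by
    unfold tot
    rw [← ENNReal.tsum_mul_left]
    refine ENNReal.tsum_le_tsum (fun l => ?_)
    by_cases h : l ∈ S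
    · rw [Set.indicator_of_mem h, Set.indicator_of_mem h]
      exact mul_le_mul_left (by exact_mod_cast hJ l h) _
    · rw [Set.indicator_of_notMem h, Set.indicator_of_notMem h, mul_zero]
  rw [← marked'] at e1
  refine (mul_le_mul_left e1 _).trans ?_
  unfold Lam
  set P := {p : List V × (V × Bool × Bool) | p.1 ∈ S ∧ p.2 ∈ Q p.1} with hP
  set P' := {p : List V × (V × Bool × Bool) | p.1 ∈ S' ∧ p.2 ∈ Q' p.1} with hP'
  have e2 : (∑' p : P, wt p.1.1) * ∑' L : Lp N, xc ^ L.1.length =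
      ∑' x : P × Lp N, wt x.1.1.1 * xc ^ x.2.1.length := by
    rw [ENNReal.tsum_prod', ← ENNReal.tsum_mul_right]
    exact tsum_congr (fun p => ENNReal.tsum_mul_left.symm)
  rw [e2]
  set φ : P × Lp N → P' := fun x => ⟨(F x.1.1.1 x.1.1.2 x.2.1, x.1.1.2),
    hF1 _ x.1.2.1 _ x.1.2.2 _ x.2.2, hF3 _ x.1.2.1 _ x.1.2.2 _ x.2.2⟩ with hφ
  have hinj : Function.Injective φ := by
    rintro ⟨⟨⟨l, i⟩, hl, hi⟩, L, hL⟩ ⟨⟨⟨l', i'⟩, hl', hi'⟩, L', hL'⟩ h
    simp only [hφ, Subtype.mk.injEq, Prod.mk.injEq] at h hl hi hl' hi'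
    obtain ⟨h2, rfl⟩ := h
    have g1 := hF2 l hl i hi L hL
    have g2 := hF2 l' hl' i hi' L' hL'
    rw [← h2] at g2
    obtain ⟨rfl, rfl⟩ := g1.inj g2
    rfl
  calc ∑' x : P × Lp N, wt x.1.1.1 * xc ^ x.2.1.length
      ≤ ∑' x : P × Lp N, 4 * wt (φ x).1.1 :=
        ENNReal.tsum_le_tsum (fun x => wt_ins (hF2 _ x.1.2.1 _ x.1.2.2 _ x.2.2))
    _ = 4 * ∑' x : P × Lp N, wt (φ x).1.1 := ENNReal.tsum_mul_left
    _ ≤ 4 * ∑' p : P', wt p.1.1 :=
        mul_le_mul_right (ENNReal.tsum_comp_le_tsum_of_injective hinj (fun p : P' => wt p.1.1)) _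
    _ = 4 * ∑' l, S'.indicator (fun l => ((Q' l).card : ℝ≥0∞) * wt l) l := by rw [marked']
    _ ≤ 4 * (M * tot wt S') := by
        refine mul_le_mul_right ?_ _
        unfold tot
        rw [← ENNReal.tsum_mul_left]
        refine ENNReal.tsum_le_tsum (fun l => ?_)
        by_cases h : l ∈ S'
        · rw [Set.indicator_of_mem h, Set.indicator_of_mem h]
          exact mul_le_mul_left (by exact_mod_cast hM l h) _
        · rw [Set.indicator_of_notMem h, Set.indicator_of_notMem h, mul_zero]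

/-- the low vertices -/
noncomputable def Lo (c : ℤ) (r : ℕ) (l : List V) : Finset V :=
  l.toFinset.filter (fun v => c ≤ lev v ∧ lev v ≤ c + r)

/-- a piece of a strip -/
noncomputable def st (c : ℤ) (r : ℕ) (R y : ℤ) : Finset V :=
  (Finset.Icc c (c + r) ×ˢ Finset.Icc (y - R) (y + R)).image (fun q => (q.1 + q.2, q.2))

theorem mem_st {c : ℤ} {r : ℕ} {R y : ℤ} {v : V} (h1 : c ≤ lev v) (h2 : lev v ≤ c + r)
    (h3 : |v.2 - y| ≤ R) : v ∈ st c r R y := by
  unfold st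
  rw [Finset.mem_image]
  refine ⟨(lev v, v.2), ?_, ?_⟩
  · rw [abs_le] at h3
    simp only [Finset.mem_product, Finset.mem_Icc]
    omega
  · unfold lev
    simp

theorem st_card {c : ℤ} {r : ℕ} {R : ℕ} {y : ℤ} : (st c r R y).card ≤ (r + 1) * (2 * R + 1) := by
  unfold st
  refine Finset.card_image_le.trans ?_
  rw [Finset.card_product, Int.card_Icc, Int.card_Icc]
  refine Nat.mul_le_mul ?_ ?_ <;> omega

/-- the good places for an insertion -/
noncomputable def Pos (D : Set V) (c : ℤ) (r N : ℕ) (l : List V) : Finset V :=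
  l.toFinset.filter (fun v => (c ≤ lev v ∧ lev v ≤ c + r) ∧ v ∈ D ∧
    (∀ u ∈ l, |u.2 - v.2| ≤ 20 * N + 2 → lev v ≤ lev u) ∧ Inn l v ∧ (rr v ∈ l → Inn l (rr v)))

theorem pos_many {D : Set V} {c : ℤ} {r N : ℕ} {l : List V} (hN : 1 ≤ N) (hr : r ≤ N)
    (A : Finset V)
    (hA : ∀ w ∈ l, (w ∈ D ∧ c ≤ lev w) ∨ ∃ a ∈ A, cl (21 * N) a w) :
    (Lo c r l).card ≤ 400 * N ^ 3 * ((Pos D c r N l).card + A.card + 2) := by
  have hNz : (1 : ℤ) ≤ N := by exact_mod_cast hN
  have hN2 : (N : ℤ) ≤ (N : ℤ) ^ 2 := by nlinarith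
  have hcast : (((72 * N ^ 2 : ℕ)) : ℤ) = 72 * (N : ℤ) ^ 2 := by push_cast; ring
  have hsub : Lo c r l ⊆ (Pos D c r N l).biUnion (fun v => st c r ((72 * N ^ 2 : ℕ) : ℤ) v.2) ∪
      (A.biUnion (fun v => st c r ((72 * N ^ 2 : ℕ) : ℤ) v.2) ∪
        (st c r ((72 * N ^ 2 : ℕ) : ℤ) (l.head?.getD 0).2 ∪
          st c r ((72 * N ^ 2 : ℕ) : ℤ) (l.getLast?.getD 0).2)) := by
    intro v0 hv0
    unfold Lo at hv0
    rw [Finset.mem_filter, List.mem_toFinset] at hv0
    obtain ⟨hv0l, hc1, hc2⟩ := hv0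
    by_contra hcon
    simp only [Finset.mem_union, Finset.mem_biUnion, not_or, not_exists, not_and] at hcon
    obtain ⟨k1, k2, k3, k4⟩ := hcon
    -- the minimizer
    obtain ⟨v, hv, hmin⟩ := (l.toFinset.filter (fun v => c ≤ lev v)).exists_min_image
      (fun v => 25 * (N : ℤ) * lev v + |v.2 - v0.2|) ⟨v0, by
        rw [Finset.mem_filter, List.mem_toFinset]; exact ⟨hv0l, hc1⟩⟩
    rw [Finset.mem_filter, List.mem_toFinset] at hv
    obtain ⟨hvl, hvc⟩ := hv
    have m0 := hmin v0 (by rw [Finset.mem_filter, List.mem_toFinset]; exact ⟨hv0l, hc1⟩)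
    simp only [sub_self, abs_zero, add_zero] at m0
    have habs := abs_nonneg (v.2 - v0.2)
    have hle : lev v ≤ lev v0 := by
      by_contra hlt
      push Not at hlt
      have : 25 * (N : ℤ) * (lev v0 + 1) ≤ 25 * (N : ℤ) * lev v :=
        mul_le_mul_of_nonneg_left (by omega) (by positivity)
      nlinarith
    have hdist : |v.2 - v0.2| ≤ 25 * (N : ℤ) ^ 2 := by
      have e1 : lev v0 - lev v ≤ N := by
        have : (r : ℤ) ≤ N := by exact_mod_cast hr
        omega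
      have e2 : 25 * (N : ℤ) * (lev v0 - lev v) ≤ 25 * (N : ℤ) * N :=
        mul_le_mul_of_nonneg_left e1 (by positivity)
      nlinarith
    have hfar : ∀ a ∈ A, 72 * (N : ℤ) ^ 2 < |v0.2 - a.2| := by
      intro a ha
      by_contra hcon
      push Not at hcon
      exact k2 a ha (mem_st hc1 hc2 (by rw [hcast]; exact hcon))
    have hlow : ∀ u ∈ l, |u.2 - v.2| ≤ 20 * N + 2 → lev v ≤ lev u := by
      intro u hu hd
      by_cases hcu : c ≤ lev u
      · have m1 := hmin u (by rw [Finset.mem_filter, List.mem_toFinset]; exact ⟨hu, hcu⟩)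
        have tri : |u.2 - v0.2| ≤ |u.2 - v.2| + |v.2 - v0.2| := abs_sub_le _ _ _
        by_contra hlt
        push Not at hlt
        have : 25 * (N : ℤ) * (lev u + 1) ≤ 25 * (N : ℤ) * lev v :=
          mul_le_mul_of_nonneg_left (by omega) (by positivity)
        nlinarith
      · exfalso
        rcases hA u hu with h | ⟨a, ha, hau⟩
        · exact hcu h.2
        · have h1 := hfar a ha
          have h2 := hau.2
          have t1 : |v0.2 - a.2| ≤ |v0.2 - u.2| + |u.2 - a.2| := abs_sub_le _ _ _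
          have t2 : |v0.2 - u.2| ≤ |v0.2 - v.2| + |v.2 - u.2| := abs_sub_le _ _ _
          rw [abs_sub_comm v0.2 v.2, abs_sub_comm v.2 u.2] at t2
          rw [abs_sub_comm u.2 a.2] at t1
          linarith
    have hvD : v ∈ D := by
      rcases hA v hvl with h | ⟨a, ha, hav⟩
      · exact h.1
      · exfalso
        have h1 := hfar a ha
        have h2 := hav.2
        have t1 : |v0.2 - a.2| ≤ |v0.2 - v.2| + |v.2 - a.2| := abs_sub_le _ _ _
        rw [abs_sub_comm v0.2 v.2, abs_sub_comm v.2 a.2] at t1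
        linarith
    have hend : ∀ u ∈ l, |u.2 - v.2| ≤ 1 → Inn l u := by
      intro u hu hd
      have t2 : |v0.2 - u.2| ≤ |v0.2 - v.2| + |v.2 - u.2| := abs_sub_le _ _ _
      rw [abs_sub_comm v0.2 v.2, abs_sub_comm v.2 u.2] at t2
      have hb : |v0.2 - u.2| ≤ ((72 * N ^ 2 : ℕ) : ℤ) := by
        rw [hcast]
        nlinarith
      refine inn_of hu (fun e => k3 ?_) (fun e => k4 ?_)
      · rw [e]
        exact mem_st hc1 hc2 hb
      · rw [e]
        exact mem_st hc1 hc2 hb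
    refine k1 v ?_ (mem_st hc1 hc2 ?_)
    · unfold Pos
      rw [Finset.mem_filter, List.mem_toFinset]
      refine ⟨hvl, ⟨hvc, by omega⟩, hvD, hlow, hend v hvl (by simp), fun hrr => hend _ hrr ?_⟩
      unfold rr
      simp
    · rw [hcast, abs_sub_comm]
      nlinarith
  have hB : ∀ y : ℤ, (st c r ((72 * N ^ 2 : ℕ) : ℤ) y).card ≤ 400 * N ^ 3 := by
    intro y
    refine st_card.trans ?_
    have e1 : r + 1 ≤ 2 * N := by omega
    have e2 : 2 * (72 * N ^ 2) + 1 ≤ 200 * N ^ 2 := by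
      have : 1 ≤ N ^ 2 := Nat.one_le_pow _ _ hN
      omega
    calc (r + 1) * (2 * (72 * N ^ 2) + 1) ≤ (2 * N) * (200 * N ^ 2) := Nat.mul_le_mul e1 e2
      _ = _ := by ring
  have h1 := Finset.card_le_card hsub
  have h2 := Finset.card_union_le
    ((Pos D c r N l).biUnion (fun v => st c r ((72 * N ^ 2 : ℕ) : ℤ) v.2))
    (A.biUnion (fun v => st c r ((72 * N ^ 2 : ℕ) : ℤ) v.2) ∪
        (st c r ((72 * N ^ 2 : ℕ) : ℤ) (l.head?.getD 0).2 ∪
          st c r ((72 * N ^ 2 : ℕ) : ℤ) (l.getLast?.getD 0).2))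
  have h3 := Finset.card_union_le (A.biUnion (fun v => st c r ((72 * N ^ 2 : ℕ) : ℤ) v.2))
    (st c r ((72 * N ^ 2 : ℕ) : ℤ) (l.head?.getD 0).2 ∪
          st c r ((72 * N ^ 2 : ℕ) : ℤ) (l.getLast?.getD 0).2)
  have h4 := Finset.card_union_le (st c r ((72 * N ^ 2 : ℕ) : ℤ) (l.head?.getD 0).2)
    (st c r ((72 * N ^ 2 : ℕ) : ℤ) (l.getLast?.getD 0).2)
  have h5 : ((Pos D c r N l).biUnion (fun v => st c r ((72 * N ^ 2 : ℕ) : ℤ) v.2)).card ≤
      (Pos D c r N l).card * (400 * N ^ 3) := Finset.card_biUnion_le_card_mul _ _ _ (fun v _ => hB _)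
  have h6 : (A.biUnion (fun v => st c r ((72 * N ^ 2 : ℕ) : ℤ) v.2)).card ≤
      A.card * (400 * N ^ 3) := Finset.card_biUnion_le_card_mul _ _ _ (fun v _ => hB _)
  have h7 := hB (l.head?.getD 0).2
  have h8 := hB (l.getLast?.getD 0).2
  have e : 400 * N ^ 3 * ((Pos D c r N l).card + A.card + 2) =
      (Pos D c r N l).card * (400 * N ^ 3) + (A.card * (400 * N ^ 3) + (400 * N ^ 3 + 400 * N ^ 3)) := by
    ring
  rw [e]
  omega

/-- the marked places for an insertion -/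
noncomputable def QP (D : Set V) (c : ℤ) (r N : ℕ) (l : List V) : Finset (V × Bool × Bool) :=
  (Pos D c r N l ×ˢ (Finset.univ : Finset Bool) ×ˢ (Finset.univ : Finset Bool)).filter
    (fun i => ∀ L ∈ Lp N, ∃ W, Ins N l i.1 i.2.1 i.2.2 L W)

theorem pos_le_QP {D : Set V} {c : ℤ} {r N : ℕ} {l : List V} (hn : l.Nodup)
    (hc : l.IsChain Nbr) : (Pos D c r N l).card ≤ (QP D c r N l).card := by
  have hsub : Pos D c r N l ⊆ (QP D c r N l).image Prod.fst := by
    intro v hv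
    have hv' := hv
    unfold Pos at hv'
    rw [Finset.mem_filter] at hv'
    obtain ⟨-, -, -, h1, h2, h3⟩ := hv'
    obtain ⟨-, t, g, h4⟩ := ins_exists hn hc h2 h3 h1
    rw [Finset.mem_image]
    refine ⟨(v, t, g), ?_, rfl⟩
    unfold QP
    rw [Finset.mem_filter]
    exact ⟨by simp [hv], h4⟩
  exact (Finset.card_le_card hsub).trans Finset.card_image_le

/-- the places where a removal is possible -/
noncomputable def QD (c : ℤ) (N : ℕ) (W : List V) : Finset (V × Bool × Bool) :=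
  (W.toFinset.filter (fun v => ∃ u ∈ W, lev u < c ∧ cl (21 * N) v u)) ×ˢ
    (Finset.univ : Finset Bool) ×ˢ (Finset.univ : Finset Bool)

theorem QD_card {D : Set V} {c : ℤ} {N : ℕ} {W : List V} (hN : 1 ≤ N) (A : Finset V)
    (hA : ∀ w ∈ W, (w ∈ D ∧ c ≤ lev w) ∨ ∃ a ∈ A, cl (21 * N) a w) :
    (QD c N W).card ≤ 4 * (7225 * N ^ 2 * A.card) := by
  unfold QD
  rw [Finset.card_product, Finset.card_product, Finset.card_univ, Fintype.card_bool]
  have hsub : W.toFinset.filter (fun v => ∃ u ∈ W, lev u < c ∧ cl (21 * N) v u) ⊆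
      A.biUnion (bx (42 * N)) := by
    intro v hv
    rw [Finset.mem_filter] at hv
    obtain ⟨-, u, hu, h1, h2⟩ := hv
    rcases hA u hu with h | ⟨a, ha, h3⟩
    · exact absurd h.2 (not_le.2 h1)
    · rw [Finset.mem_biUnion]
      refine ⟨a, ha, mem_bx.2 ?_⟩
      exact (h2.trans h3.symm).mono (by omega)
  have h1 := Finset.card_le_card hsub
  have h2 : (A.biUnion (bx (42 * N))).card ≤ A.card * (7225 * N ^ 2) := by
    refine Finset.card_biUnion_le_card_mul _ _ _ (fun v _ => ?_)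
    rw [bx_card]
    have e : (2 * (42 * (N : ℤ)) + 1).toNat ≤ 85 * N := by omega
    calc (2 * (42 * (N : ℤ)) + 1).toNat ^ 2 ≤ (85 * N) ^ 2 := Nat.pow_le_pow_left e 2
      _ = _ := by ring
  have h3 := h1.trans h2
  calc _ ≤ (A.card * (7225 * N ^ 2)) * (2 * 2) := Nat.mul_le_mul_right _ h3
    _ = _ := by ring

/-- the sets of the iteration -/
def SJ (G : ℕ → Set (List V)) (D : Set V) (c : ℤ) (r N m j : ℕ) : Set (List V) :=
  {l | l ∈ G j ∧ l.Nodup ∧ l.IsChain Nbr ∧ (∃ A : Finset V, A.card ≤ j ∧ (∀ a ∈ A, a ∈ D) ∧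
    ∀ w ∈ l, (w ∈ D ∧ c ≤ lev w) ∨ ∃ a ∈ A, cl (21 * N) a w) ∧ m ≤ (Lo c r l).card + j}

theorem step {G : ℕ → Set (List V)} {D : Set V} {c : ℤ} {r N m j : ℕ} (hN : 1 ≤ N) (hr : r ≤ N)
    (hG : ∀ j, ∀ l ∈ G j, ∀ v t g L W, Ins N l v t g L W → W ∈ G (j + 1))
    {l : List V} (hl : l ∈ SJ G D c r N m j) {i : V × Bool × Bool} (hi : i ∈ QP D c r N l)
    {L : List V} (hL : L ∈ Lp N) :
    ∃ W ∈ SJ G D c r N m (j + 1), Ins N l i.1 i.2.1 i.2.2 L W ∧ i ∈ QD c N W := by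
  obtain ⟨v, t, g⟩ := i
  obtain ⟨g1, g2, g3, ⟨A, a1, a2, a3⟩, g5⟩ := hl
  unfold QP at hi
  rw [Finset.mem_filter] at hi
  obtain ⟨hi1, hi2⟩ := hi
  obtain ⟨W, hW⟩ := hi2 L hL
  simp only at hW
  rw [Finset.mem_product] at hi1
  have hv := hi1.1
  simp only at hv
  unfold Pos at hv
  rw [Finset.mem_filter, List.mem_toFinset] at hv
  obtain ⟨hvl, ⟨hv1, hv2⟩, hvD, -⟩ := hv
  have hNz : (1 : ℤ) ≤ N := by exact_mod_cast hN
  have hrz : (r : ℤ) ≤ N := by exact_mod_cast hr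
  have hcl : ∀ u ∈ sh (dn v) L, cl (21 * N) v u := by
    intro u hu
    obtain ⟨u', hu', rfl⟩ := mem_sh.1 hu
    obtain ⟨-, -, k3⟩ := hL.2.2.2.2.1 u' hu'
    obtain ⟨a, b⟩ := u'
    obtain ⟨x, y⟩ := v
    unfold cl dn at *
    simp only [Prod.mk_add_mk, abs_le] at *
    omega
  refine ⟨W, ⟨hG j l g1 v t g L W hW, hW.2.2.1, hW.2.2.2, ⟨insert v A, ?_, ?_, ?_⟩, ?_⟩, hW, ?_⟩
  · exact (Finset.card_insert_le _ _).trans (by omega)
  · intro a ha
    rw [Finset.mem_insert] at ha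
    rcases ha with rfl | ha
    · exact hvD
    · exact a2 a ha
  · intro w hw
    rcases hW.mem hw with h | h | h | h
    · rcases a3 w h with k | ⟨a, ha, k⟩
      · exact Or.inl k
      · exact Or.inr ⟨a, Finset.mem_insert_of_mem ha, k⟩
    · right
      refine ⟨v, Finset.mem_insert_self _ _, ?_⟩
      rw [h]
      unfold cl dr
      simp only [sub_self, abs_zero, abs_le]
      omega
    · right
      refine ⟨v, Finset.mem_insert_self _ _, ?_⟩
      rw [h]
      unfold cl rr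
      simp only [abs_le]
      omega
    · exact Or.inr ⟨v, Finset.mem_insert_self _ _, hcl w h⟩
  · have hsub : Lo c r l ⊆ insert (ur v) (Lo c r W) := by
      intro u hu
      unfold Lo at hu ⊢
      rw [Finset.mem_filter, List.mem_toFinset] at hu
      rw [Finset.mem_insert, Finset.mem_filter, List.mem_toFinset]
      rcases hW.mem_old hu.1 with h | h
      · exact Or.inr ⟨h, hu.2⟩
      · exact Or.inl h
    have h1 := (Finset.card_le_card hsub).trans (Finset.card_insert_le _ _)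
    omega
  · unfold QD
    rw [Finset.mem_product]
    refine ⟨?_, by simp⟩
    simp only
    rw [Finset.mem_filter, List.mem_toFinset]
    refine ⟨hW.v_mem.1, ?_⟩
    obtain ⟨u', hu', hlu⟩ := hL.2.2.2.2.2
    have hu : dn v + u' ∈ sh (dn v) L := mem_sh.2 ⟨u', hu', rfl⟩
    refine ⟨dn v + u', hW.v_mem.2 _ hu, ?_, hcl _ hu⟩
    unfold lev dn at *
    simp only [Prod.fst_add, Prod.snd_add]
    omega

/-- **The iteration.** -/
theorem cnt (G : ℕ → Set (List V)) (D : Set V) (c : ℤ) (r N m s P : ℕ) (hN : 1 ≤ N) (hr : r ≤ N)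
    (hG : ∀ j, ∀ l ∈ G j, ∀ v t g L W, Ins N l v t g L W → W ∈ G (j + 1))
    (hP : 1 ≤ (P : ℝ≥0∞) * Lam N)
    (hm : 400 * N ^ 3 * (64 * (7225 * N ^ 2 * s) * P + s + 2) + s ≤ m) :
    (4 : ℝ≥0∞) ^ s * tot wt {l | l ∈ G 0 ∧ l.Nodup ∧ l.IsChain Nbr ∧
      (∀ v ∈ l, v ∈ D ∧ c ≤ lev v) ∧ m ≤ (Lo c r l).card} ≤
      tot wt {l | l ∈ G s ∧ l.Nodup ∧ l.IsChain Nbr ∧ ∀ w ∈ l, ∃ a ∈ D, cl (21 * N) a w} := by
  have key : ∀ j, j ≤ s → (4 : ℝ≥0∞) ^ j * tot wt {l | l ∈ G 0 ∧ l.Nodup ∧ l.IsChain Nbr ∧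
      (∀ v ∈ l, v ∈ D ∧ c ≤ lev v) ∧ m ≤ (Lo c r l).card} ≤ tot wt (SJ G D c r N m j) := by
    intro j
    induction j with
    | zero =>
      intro _
      rw [pow_zero, one_mul]
      refine tot_mono wt (fun l hl => ?_)
      obtain ⟨h1, h2, h3, h4, h5⟩ := hl
      exact ⟨h1, h2, h3, ⟨∅, by simp, by simp, fun w hw => Or.inl (h4 w hw)⟩, by omega⟩
    | succ j ih =>
      intro hj
      have ih' := ih (by omega)
      set mm : ℕ := 7225 * N ^ 2 * s with hmm
      have hone := one' N (SJ G D c r N m j) (SJ G D c r N m (j + 1)) (QP D c r N) (QD c N)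
        (64 * mm * P) (4 * mm)
        (fun l hl i hi L hL => step hN hr hG hl hi hL) (by
          rintro l ⟨g1, g2, g3, ⟨A, a1, a2, a3⟩, g5⟩
          have h1 := pos_many (D := D) hN hr A a3
          have h2 := pos_le_QP (D := D) (c := c) (r := r) (N := N) g2 g3
          by_contra hlt
          push Not at hlt
          have h3 : (Pos D c r N l).card + A.card + 2 + 1 ≤ 64 * mm * P + s + 2 := by omega
          have h4 := Nat.mul_le_mul_left (400 * N ^ 3) h3
          have h5 : 1 ≤ 400 * N ^ 3 := by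
            have : 1 ≤ N ^ 3 := Nat.one_le_pow _ _ hN
            omega
          have h6 : 400 * N ^ 3 * ((Pos D c r N l).card + A.card + 2 + 1) =
            400 * N ^ 3 * ((Pos D c r N l).card + A.card + 2) + 400 * N ^ 3 := by ring
          omega) (by
          rintro W ⟨g1, g2, g3, ⟨A, a1, a2, a3⟩, g5⟩
          refine (QD_card (D := D) hN A a3).trans ?_
          rw [hmm]
          exact Nat.mul_le_mul_left _ (Nat.mul_le_mul_left _ (by omega)))
      have hmpos : 1 ≤ mm := by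
        rw [hmm]
        have h1 : 1 ≤ N ^ 2 := Nat.one_le_pow _ _ hN
        have h2 : 0 < 7225 * N ^ 2 * s := by
          have : 0 < s := by omega
          positivity
        exact h2
      have hm0 : ((16 * mm : ℕ) : ℝ≥0∞) ≠ 0 := by
        simp only [ne_eq, Nat.cast_eq_zero]
        omega
      have hle : (4 : ℝ≥0∞) * tot wt (SJ G D c r N m j) ≤ tot wt (SJ G D c r N m (j + 1)) := by
        have e : ((16 * mm : ℕ) : ℝ≥0∞) * ((4 : ℝ≥0∞) * tot wt (SJ G D c r N m j)) ≤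
            ((16 * mm : ℕ) : ℝ≥0∞) * tot wt (SJ G D c r N m (j + 1)) := by
          calc ((16 * mm : ℕ) : ℝ≥0∞) * ((4 : ℝ≥0∞) * tot wt (SJ G D c r N m j))
              = (((64 * mm : ℕ) : ℝ≥0∞) * tot wt (SJ G D c r N m j)) * 1 := by
                push_cast; ring
            _ ≤ (((64 * mm : ℕ) : ℝ≥0∞) * tot wt (SJ G D c r N m j)) * (P * Lam N) :=
                mul_le_mul_right hP _
            _ = ((64 * mm * P : ℕ) : ℝ≥0∞) * tot wt (SJ G D c r N m j) * Lam N := by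
                push_cast; ring
            _ ≤ _ := hone
            _ = _ := by push_cast; ring
        exact (ENNReal.mul_le_mul_iff_right hm0 (ENNReal.natCast_ne_top _)).1 e
      calc (4 : ℝ≥0∞) ^ (j + 1) * tot wt {l | l ∈ G 0 ∧ l.Nodup ∧ l.IsChain Nbr ∧
              (∀ v ∈ l, v ∈ D ∧ c ≤ lev v) ∧ m ≤ (Lo c r l).card}
          = 4 * (4 ^ j * tot wt {l | l ∈ G 0 ∧ l.Nodup ∧ l.IsChain Nbr ∧
              (∀ v ∈ l, v ∈ D ∧ c ≤ lev v) ∧ m ≤ (Lo c r l).card}) := by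
            rw [pow_succ]; ring
        _ ≤ 4 * tot wt (SJ G D c r N m j) := mul_le_mul_right ih' _
        _ ≤ _ := hle
  refine (key s le_rfl).trans (tot_mono wt ?_)
  rintro l ⟨g1, g2, g3, ⟨A, a1, a2, a3⟩, -⟩
  refine ⟨g1, g2, g3, fun w hw => ?_⟩
  rcases a3 w hw with h | ⟨a, ha, h⟩
  · exact ⟨w, h.1, cl_self w (by positivity)⟩
  · exact ⟨a, a2 a ha, h⟩

end Pool.Agent.U372.PX
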