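import Pool.Agent.U372.PX.Asm

/-! # The number of vertices close to the supporting lines -/

set_option autoImplicit false

namespace Pool.Agent.U372.PX

open scoped ENNReal Classical
open Pool.Agent.U372.HX
open Pool.Agent.W832.HR (emb lv HD Hd Bd Z xc lv_le lv_sub lv_emb s3_le s3_ge)

/-- the number of the vertices which suffices -/
def mm (n s r : ℕ) : ℕ :=
  400 * (n * r) ^ 3 * (64 * (7225 * (n * r) ^ 2 * s) * (n * r) ^ n + s + 2) + s

theorem mm_le {n s r : ℕ} (hn : 1 ≤ n) (hs : 1 ≤ s) (hr : 1 ≤ r) :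
    mm n s r ≤ 200000000 * (s * (n * r) ^ (n + 5)) := by
  unfold mm
  set N := n * r with hN
  have hN1 : 1 ≤ N := Nat.mul_pos hn hr
  have e1 : N ^ 3 ≤ N ^ (n + 5) := Nat.pow_le_pow_right hN1 (by omega)
  have e2 : 1 ≤ N ^ (n + 5) := Nat.one_le_pow _ _ hN1
  have e3 : 400 * N ^ 3 * (64 * (7225 * N ^ 2 * s) * N ^ n) = 184960000 * (s * N ^ (n + 5)) := by
    have : N ^ (n + 5) = N ^ 3 * N ^ 2 * N ^ n := by
      rw [← pow_add, ← pow_add]
      congr 1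
      omega
    rw [this]
    ring
  have e4 : 400 * N ^ 3 * (s + 2) ≤ 1200 * (s * N ^ (n + 5)) := by
    calc 400 * N ^ 3 * (s + 2) ≤ 400 * N ^ (n + 5) * (3 * s) :=
          Nat.mul_le_mul (Nat.mul_le_mul_left _ e1) (by omega)
      _ = _ := by ring
  have e5 : s ≤ s * N ^ (n + 5) := Nat.le_mul_of_pos_right _ e2
  calc 400 * N ^ 3 * (64 * (7225 * N ^ 2 * s) * N ^ n + s + 2) + s
      = 400 * N ^ 3 * (64 * (7225 * N ^ 2 * s) * N ^ n) + 400 * N ^ 3 * (s + 2) + s := by ring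
    _ ≤ 184960000 * (s * N ^ (n + 5)) + 1200 * (s * N ^ (n + 5)) + s * N ^ (n + 5) := by
        rw [e3]
        exact Nat.add_le_add (Nat.add_le_add_left e4 _) e5
    _ ≤ _ := by omega

theorem tot_empty : tot wt ∅ = 0 := by
  unfold tot
  simp

theorem ax1 {B y m : ℝ} (hB : B < 2 * (m + 8) * y + 1) (h : 4 * (m + 8) + 3 ≤ y) (hy : 1 ≤ y) :
    2 * B + 1 ≤ y ^ 2 := by nlinarith

theorem ax2 {B y : ℝ} (hB : B < y + 1) (hy : 144 ≤ y) : B + 1 ≤ y ^ 2 := by nlinarith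

theorem ax3 {r R y : ℝ} (h0 : 0 ≤ r) (h : r ≤ 4 * R) (h2 : R ^ 2 < y) : r ^ 2 ≤ 16 * y := by
  have : r ^ 2 ≤ (4 * R) ^ 2 := pow_le_pow_left₀ h0 h 2
  nlinarith

theorem ax4 {r y : ℝ} (h2 : r ^ 2 ≤ 16 * y) (hy : 144 ≤ y) : r ≤ y := by
  apply le_of_sq_le_sq _ (by linarith)
  nlinarith

theorem ax5 {K C L x : ℝ} (hK : 0 ≤ K) (hL : 1 ≤ L) (hx : 0 ≤ x) (hC : 0 ≤ C) :
    x + (K * L ^ 2 + 5 * L) + C * L ≤ x + (K + C + 20) * L ^ 2 := by
  have h : L ≤ L ^ 2 := by nlinarith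
  have h1 : C * L ≤ C * L ^ 2 := mul_le_mul_of_nonneg_left h hC
  linarith

theorem ax6 {C R : ℝ} {c : ℕ} {t y : ℝ} (hC : 1 ≤ C) (hR : 1 ≤ R) (hc : 8 ≤ c) (ht : 1 ≤ t)
    (h : C * R ^ c * t < y) : R ^ 8 < y := by
  have e1 : R ^ 8 ≤ R ^ c := pow_le_pow_right₀ hR hc
  have e2 : 0 ≤ R ^ c := by positivity
  have e3 : 1 * R ^ c ≤ C * R ^ c := mul_le_mul_of_nonneg_right hC e2
  have e5 : 0 ≤ C * R ^ c := by positivity
  have e4 : C * R ^ c * 1 ≤ C * R ^ c * t := mul_le_mul_of_nonneg_left ht e5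
  linarith

theorem ax7 {n r R : ℝ} (hn : 0 ≤ n) (h : r ≤ 4 * R) : n * r ≤ 4 * n * R := by
  calc n * r ≤ n * (4 * R) := mul_le_mul_of_nonneg_left h hn
    _ = _ := by ring

theorem ax8 {A K L x : ℝ} (hA : K ≤ A) (hA1 : 1 ≤ A) (hx : 0 ≤ x) :
    x + K * L ^ 2 ≤ A * (L ^ 2 + x) := by
  have g3 : K * L ^ 2 ≤ A * L ^ 2 := mul_le_mul_of_nonneg_right hA (sq_nonneg _)
  have g4 : 1 * x ≤ A * x := mul_le_mul_of_nonneg_right hA1 hx
  linarith

/-- the property which is rare -/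
def Bad (C : ℕ) (t : ℝ) (l : List V) : Prop :=
  ∃ j < 6, ∃ R : ℝ, 1 ≤ R ∧ C * R ^ C * t < (sup j R l : ℝ)

/-- the weight of the bad walks between two vertices -/
theorem badtot (M : ℝ) (hM0 : 0 ≤ M) : ∃ K₂ : ℝ, 0 ≤ K₂ ∧ ∀ A : ℕ, 20 ≤ A → ∃ C : ℕ, A ≤ C ∧
    8 * M + 7 ≤ C ∧ 144 ≤ C ∧ ∀ δ : ℝ, 0 < δ → C * δ ≤ 1 → ∀ (D : Set V),
      (∀ v ∈ D, ‖(δ : ℂ) * emb v‖ ≤ M) → ∀ (p q : V) (x T : ℝ), 0 ≤ x → 1 ≤ T →
      T ≤ A * (Real.log (1 / δ) ^ 2 + x) →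
      tot wt {l | l ∈ Tr D p q ∧ Bad C (Real.log (1 / δ) ^ 2 + x) l} ≤
        ENNReal.ofReal (Real.exp (-T + K₂ * Real.log (1 / δ) ^ 2 + 5 * Real.log (1 / δ))) := by
  obtain ⟨K₂, hK₂, hfix⟩ := fixed M hM0
  obtain ⟨n, hn, hlam⟩ := lam_lower
  refine ⟨K₂, hK₂, fun A hA20' => ?_⟩
  obtain ⟨Mn, hMn⟩ := exists_nat_ge M
  obtain ⟨X, hX⟩ : ∃ X : ℕ, X = (4 * n) ^ (n + 5) := ⟨_, rfl⟩
  have hX1 : 1 ≤ X := by
    rw [hX]
    exact Nat.one_le_pow _ _ (by omega)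
  obtain ⟨C, hC⟩ : ∃ C : ℕ, C = 400000000 * X * A + (252 * n) ^ 2 + 100 * (Mn + 8) + n + 5 :=
    ⟨_, rfl⟩
  have hA20 : (20 : ℝ) ≤ A := by exact_mod_cast hA20'
  have hXA : A ≤ 400000000 * X * A := by
    have : 1 ≤ 400000000 * X := by omega
    exact Nat.le_mul_of_pos_left _ this
  have hCn : n + 5 ≤ C := by omega
  have hCr : (C : ℝ) = 400000000 * X * A + (252 * n) ^ 2 + 100 * (Mn + 8) + n + 5 := by
    rw [hC]
    push_cast
    ring
  have hXAr : (A : ℝ) ≤ 400000000 * X * A := by exact_mod_cast hXA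
  have hn0 : (1 : ℝ) ≤ n := by exact_mod_cast hn
  have hMn0 : (0 : ℝ) ≤ Mn := Nat.cast_nonneg _
  have hsq0 : (0 : ℝ) ≤ (252 * (n : ℝ)) ^ 2 := sq_nonneg _
  refine ⟨C, by omega, by rw [hCr]; linarith, by omega, ?_⟩
  intro δ hδ hCδ D hDM' p q x T hx hT1 hTA
  have small : ∀ y c : ℝ, 0 ≤ y → (C : ℝ) * y ≤ 1 → c ≤ C → c * y ≤ 1 := by
    intro y c hy hy1 hcC
    exact (mul_le_mul_of_nonneg_right hcC hy).trans hy1
  have h144 : 144 * δ ≤ 1 := small δ 144 hδ.le hCδ (by rw [hCr]; linarith)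
  have h8 : (8 * M + 7) * δ ≤ 1 := small δ _ hδ.le hCδ (by rw [hCr]; linarith)
  obtain ⟨hbox, hlog, -⟩ := mesh hM0 hδ h144 h8
  obtain ⟨Nb, hNb, hNbc⟩ := hbox D hDM'
  obtain ⟨y, hy⟩ : ∃ y : ℝ, y = 1 / δ := ⟨_, rfl⟩
  rw [← hy] at hlog hNbc hTA
  rw [← hy]
  have hy0 : 0 < y := by rw [hy]; positivity
  have hbig : ∀ c : ℝ, c ≤ C → c ≤ y := by
    intro c hc'
    rw [hy, le_div_iff₀ hδ]
    exact small δ c hδ.le hCδ hc'
  have hδy : δ = 1 / y := by rw [hy, one_div_one_div]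
  obtain ⟨L, hL⟩ : ∃ L : ℝ, L = Real.log y := ⟨_, rfl⟩
  rw [← hL] at hlog hTA
  rw [← hL]
  have hLL : L ≤ L ^ 2 := by nlinarith
  obtain ⟨s, hs⟩ : ∃ s : ℕ, s = ⌈T⌉₊ := ⟨_, rfl⟩
  have hsT : T ≤ s := by rw [hs]; exact Nat.le_ceil _
  have hsT2 : (s : ℝ) < T + 1 := by rw [hs]; exact Nat.ceil_lt_add_one (by linarith)
  have hs1 : 1 ≤ s := by
    have : (0 : ℝ) < s := by linarith
    exact_mod_cast this
  obtain ⟨Bn, hBn⟩ : ∃ Bn : ℕ, Bn = ⌈2 * (M + 8) * y⌉₊ := ⟨_, rfl⟩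
  have hB1 : 2 * (M + 8) * y ≤ Bn := by rw [hBn]; exact Nat.le_ceil _
  have hB2 : (Bn : ℝ) < 2 * (M + 8) * y + 1 := by
    rw [hBn]
    exact Nat.ceil_lt_add_one (by positivity)
  obtain ⟨F, hF⟩ : ∃ F : Finset (ℕ × ℤ × ℕ), F = Finset.range 6 ×ˢ
    (Finset.Icc (-(Bn : ℤ)) Bn ×ˢ Finset.range (⌈y⌉₊ + 1)) := ⟨_, rfl⟩
  obtain ⟨Ti, hTi⟩ : ∃ Ti : ℕ × ℤ × ℕ → Set (List V), Ti = fun i =>
    {l | (1 ≤ i.2.2 ∧ (i.2.2 : ℝ) ^ 2 ≤ 16 * y) ∧
    l ∈ Ev D p q i.1 i.2.1 i.2.2 (mm n s i.2.2)} := ⟨_, rfl⟩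
  -- the probability of one event
  have hone : ∀ i ∈ F, tot wt (Ti i) ≤ ENNReal.ofReal (Real.exp (-T + K₂ * L ^ 2)) := by
    rintro ⟨j, c, r⟩ hi
    rw [hF, Finset.mem_product, Finset.mem_product, Finset.mem_range] at hi
    by_cases hcond : 1 ≤ r ∧ (r : ℝ) ^ 2 ≤ 16 * y
    · obtain ⟨hr1, hr2⟩ := hcond
      have hr1' : (1 : ℝ) ≤ r := by exact_mod_cast hr1
      have hNδ : 63 * ((n * r : ℕ) : ℝ) * δ ≤ 1 := by
        rw [hδy, mul_one_div, div_le_one hy0]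
        apply le_of_sq_le_sq _ hy0.le
        have e1 : (252 * (n : ℝ)) ^ 2 ≤ y := hbig _ (by rw [hCr]; linarith)
        push_cast
        calc (63 * ((n : ℝ) * r)) ^ 2 = (63 * (n : ℝ)) ^ 2 * (r : ℝ) ^ 2 := by ring
          _ ≤ (63 * (n : ℝ)) ^ 2 * (16 * y) := mul_le_mul_of_nonneg_left hr2 (sq_nonneg _)
          _ = (252 * (n : ℝ)) ^ 2 * y := by ring
          _ ≤ y * y := mul_le_mul_of_nonneg_right e1 hy0.le
          _ = y ^ 2 := by ring
      have g := hfix δ hδ (by linarith) D hDM' p q j hi.1 c r (n * r) (mm n s r) s ((n * r) ^ n)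
        (Nat.mul_pos hn hr1) (Nat.le_mul_of_pos_left _ hn) hNδ
        (hlam (n * r) (Nat.le_mul_of_pos_right _ hr1)) le_rfl
      rw [← hy, ← hL] at g
      have hexp : ENNReal.ofReal (Real.exp T) ≤ (4 : ℝ≥0∞) ^ s := by
        rw [show (4 : ℝ≥0∞) = ENNReal.ofReal 4 by norm_num, ← ENNReal.ofReal_pow (by norm_num)]
        refine ENNReal.ofReal_le_ofReal ?_
        calc Real.exp T ≤ Real.exp s := Real.exp_le_exp.2 hsT
          _ = Real.exp 1 ^ s := by rw [← Real.exp_nat_mul, mul_one]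
          _ ≤ 4 ^ s := pow_le_pow_left₀ (Real.exp_pos 1).le
            (by have := Real.exp_one_lt_d9; linarith) s
      have g2 : ENNReal.ofReal (Real.exp T) * tot wt (Ti (j, c, r)) ≤
          ENNReal.ofReal (Real.exp (K₂ * L ^ 2)) :=
        (mul_le_mul' hexp (tot_mono wt (S' := Ev D p q j c r (mm n s r))
          (fun l hl => by rw [hTi] at hl; exact hl.2))).trans g
      calc tot wt (Ti (j, c, r)) = ENNReal.ofReal (Real.exp (-T)) *
            (ENNReal.ofReal (Real.exp T) * tot wt (Ti (j, c, r))) := by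
            rw [← mul_assoc, ← ENNReal.ofReal_mul (Real.exp_pos _).le, ← Real.exp_add,
              neg_add_cancel, Real.exp_zero, ENNReal.ofReal_one, one_mul]
        _ ≤ ENNReal.ofReal (Real.exp (-T)) * ENNReal.ofReal (Real.exp (K₂ * L ^ 2)) :=
            mul_le_mul_right g2 _
        _ = _ := by rw [← ENNReal.ofReal_mul (Real.exp_pos _).le, ← Real.exp_add]
    · have : Ti (j, c, r) = ∅ := by
        rw [Set.eq_empty_iff_forall_notMem]
        intro l hl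
        rw [hTi] at hl
        exact hcond hl.1
      rw [this, tot_empty]
      exact zero_le
  -- the number of the events
  have hcard : (F.card : ℝ) ≤ y ^ 5 := by
    rw [hF, Finset.card_product, Finset.card_product, Finset.card_range, Finset.card_range,
      Int.card_Icc]
    have e0 : ((Bn : ℤ) + 1 - -(Bn : ℤ)).toNat = 2 * Bn + 1 := by omega
    rw [e0]
    push_cast
    have hy144 : 144 ≤ y := hbig _ (by rw [hCr]; linarith)
    have e1 : (6 : ℝ) ≤ y := by linarith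
    have e2 : 2 * (Bn : ℝ) + 1 ≤ y ^ 2 := by
      have e3 : 4 * (M + 8) + 3 ≤ y := hbig _ (by rw [hCr]; linarith)
      exact ax1 hB2 e3 (by linarith)
    have e3 : (⌈y⌉₊ : ℝ) + 1 ≤ y ^ 2 := by
      exact ax2 (Nat.ceil_lt_add_one hy0.le) hy144
    calc 6 * ((2 * (Bn : ℝ) + 1) * ((⌈y⌉₊ : ℝ) + 1)) ≤ y * (y ^ 2 * y ^ 2) := by
          refine mul_le_mul e1 (mul_le_mul e2 e3 (by positivity) (by positivity)) (by positivity)
            (by positivity)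
      _ = y ^ 5 := by ring
  -- the bad walks
  have hbad : ∀ l ∈ {l | l ∈ Tr D p q ∧ Bad C (L ^ 2 + x) l}, ∃ i ∈ F, l ∈ Ti i := by
    rintro l ⟨hl, j, hj, R, hR, hbig2⟩
    have hlD : ∀ v ∈ l, v ∈ D := hl.2.2.2.2
    -- the size of `R`
    have hcnt : (sup j R l : ℝ) ≤ y ^ 4 := by
      refine le_trans ?_ hNbc
      have : sup j R l ≤ (bx Nb 0).card := by
        unfold sup
        rw [← Set.ncard_coe_finset (bx Nb 0)]
        refine Set.ncard_le_ncard ?_ (Finset.finite_toSet _)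
        rintro v ⟨hv, -⟩
        exact hNb v (hlD v hv)
      exact_mod_cast this
    have hCge1 : (1 : ℝ) ≤ C := by
      have : 1 ≤ C := by omega
      exact_mod_cast this
    have hLx : 1 ≤ L ^ 2 + x := by linarith
    have hR8 : R ^ 8 < y ^ 4 := ax6 hCge1 hR (by omega) hLx (lt_of_lt_of_le hbig2 hcnt)
    have hR2 : R ^ 2 < y := by
      refine lt_of_pow_lt_pow_left₀ 4 hy0.le ?_
      rw [← pow_mul]
      exact hR8
    obtain ⟨r, hr⟩ : ∃ r : ℕ, r = ⌈2 * R + 1⌉₊ := ⟨_, rfl⟩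
    have hr1 : 2 * R + 1 ≤ r := by
      rw [hr]
      exact Nat.le_ceil _
    have hr2 : (r : ℝ) ≤ 4 * R := by
      have : (r : ℝ) < 2 * R + 1 + 1 := by
        rw [hr]
        exact Nat.ceil_lt_add_one (by linarith)
      linarith
    have hr0 : 1 ≤ r := by
      have : (0 : ℝ) < r := by linarith
      exact_mod_cast this
    have hrr : (r : ℝ) ^ 2 ≤ 16 * y := ax3 (Nat.cast_nonneg _) hr2 hR2
    obtain ⟨v0, hv0, hmin, hsup⟩ := sup_le hl j hr1 hR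
    rw [hTi]
    refine ⟨(j, lev (ta^[j] v0), r), ?_, ⟨hr0, hrr⟩, hl, hmin, ?_⟩
    · rw [hF, Finset.mem_product, Finset.mem_product, Finset.mem_range, Finset.mem_Icc,
        Finset.mem_range]
      have e1 := (lev_small hM0 hδ (by linarith) (hDM' v0 (hlD v0 hv0)) hj).trans
        (show 2 * (M + 8) * (1 / δ) ≤ Bn by rw [← hy]; exact hB1)
      rw [abs_le] at e1
      refine ⟨hj, ⟨by exact_mod_cast e1.1, by exact_mod_cast e1.2⟩, ?_⟩
      have hy144 : 144 ≤ y := hbig _ (by rw [hCr]; linarith)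
      have e2 : (r : ℝ) ≤ y := ax4 hrr hy144
      have e3 : (r : ℝ) ≤ (⌈y⌉₊ : ℝ) := e2.trans (Nat.le_ceil _)
      have e4 : r ≤ ⌈y⌉₊ := by exact_mod_cast e3
      simp only
      omega
    · simp only
      refine le_trans ?_ hsup
      have e1 : ((mm n s r : ℕ) : ℝ) ≤ C * R ^ C * (L ^ 2 + x) := by
        have f1 : ((mm n s r : ℕ) : ℝ) ≤ 200000000 * (s * ((n * r : ℕ) : ℝ) ^ (n + 5)) := by
          exact_mod_cast mm_le hn hs1 hr0
        have f2 : (s : ℝ) ≤ 2 * A * (L ^ 2 + x) := by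
          have g1 : (s : ℝ) ≤ 2 * T := by linarith
          linarith
        have f3 : ((n * r : ℕ) : ℝ) ^ (n + 5) ≤ X * R ^ C := by
          have g1 : ((n * r : ℕ) : ℝ) ≤ (4 * n) * R := by
            push_cast
            exact ax7 (Nat.cast_nonneg _) hr2
          calc ((n * r : ℕ) : ℝ) ^ (n + 5) ≤ ((4 * n) * R) ^ (n + 5) :=
                pow_le_pow_left₀ (by positivity) g1 _
            _ = X * R ^ (n + 5) := by
                rw [mul_pow, hX]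
                push_cast
                ring
            _ ≤ X * R ^ C := mul_le_mul_of_nonneg_left (pow_le_pow_right₀ hR hCn) (by positivity)
        have f4 : (s : ℝ) * ((n * r : ℕ) : ℝ) ^ (n + 5) ≤
            (2 * A * (L ^ 2 + x)) * (X * R ^ C) :=
          mul_le_mul f2 f3 (by positivity) (by positivity)
        have f5 : (400000000 * X * A : ℝ) ≤ C := by
          rw [hCr]
          linarith
        calc ((mm n s r : ℕ) : ℝ) ≤ 200000000 * (s * ((n * r : ℕ) : ℝ) ^ (n + 5)) := f1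
          _ ≤ 200000000 * ((2 * A * (L ^ 2 + x)) * (X * R ^ C)) :=
              mul_le_mul_of_nonneg_left f4 (by norm_num)
          _ = (400000000 * X * A) * (R ^ C * (L ^ 2 + x)) := by ring
          _ ≤ C * (R ^ C * (L ^ 2 + x)) := mul_le_mul_of_nonneg_right f5 (by positivity)
          _ = _ := by ring
      have e2 := lt_of_le_of_lt e1 hbig2
      have e3 : mm n s r < sup j R l := by exact_mod_cast e2
      exact e3.le
  -- the union bound
  refine (tot_fin F _ Ti hbad).trans ?_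
  refine (Finset.sum_le_card_nsmul F _ _ hone).trans ?_
  rw [nsmul_eq_mul, ← ENNReal.ofReal_natCast, ← ENNReal.ofReal_mul (Nat.cast_nonneg _)]
  refine ENNReal.ofReal_le_ofReal ?_
  have e5 : y ^ 5 = Real.exp (5 * L) := by
    have : (5 : ℝ) * L = ((5 : ℕ) : ℝ) * L := by norm_num
    rw [this, Real.exp_nat_mul, hL, Real.exp_log hy0]
  calc (F.card : ℝ) * Real.exp (-T + K₂ * L ^ 2) ≤
        Real.exp (5 * L) * Real.exp (-T + K₂ * L ^ 2) := by
        rw [← e5]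
        exact mul_le_mul_of_nonneg_right hcard (Real.exp_pos _).le
    _ = _ := by
        rw [← Real.exp_add]
        congr 1
        ring

/-- **Decomposition at a piece.** -/
theorem tot_sub {D : Set V} {p q : V} (F : Finset V) (hF : ∀ v ∈ D, v ∈ F)
    (B : Set (List V)) (hB : ([] : List V) ∉ B) :
    tot wt {l | l ∈ Tr D p q ∧ ∃ m, m <:+: l ∧ m ∈ B} ≤
      ∑ i ∈ F ×ˢ F, Z D p i.1 * tot wt {m | m ∈ Tr D i.1 i.2 ∧ m ∈ B} * Z D i.2 q := by
  refine (tot_fin (F ×ˢ F) _ (fun i => {l | ∃ A m E, l = A ++ m ++ E ∧ A ++ [i.1] ∈ Tr D p i.1 ∧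
    (m ∈ Tr D i.1 i.2 ∧ m ∈ B) ∧ i.2 :: E ∈ Tr D i.2 q}) ?_).trans ?_
  · rintro l ⟨⟨h1, h2, h3, h4, h5⟩, m, ⟨A, E, rfl⟩, hm⟩
    rcases m with _ | ⟨v, m⟩
    · exact absurd hm hB
    obtain ⟨m', w, hw⟩ : ∃ m' w, v :: m = m' ++ [w] := by
      rcases List.eq_nil_or_concat (v :: m) with h | ⟨m', w, h⟩
      · simp at h
      · exact ⟨m', w, by rw [h, List.concat_eq_append]⟩
    have e1 : A ++ v :: m ++ E = (A ++ [v]) ++ (m ++ E) := by simp
    have e2 : A ++ v :: m ++ E = (A ++ m') ++ (w :: E) := by rw [hw]; simp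
    have hn := List.nodup_append.1 h3
    have hc := List.isChain_append.1 h4
    refine ⟨(v, w), ?_, A, v :: m, E, rfl, ⟨?_, by simp, ?_, ?_, ?_⟩,
      ⟨⟨by simp, ?_, ?_, ?_, ?_⟩, hm⟩, rfl, ?_, ?_, ?_, ?_⟩
    · rw [Finset.mem_product]
      refine ⟨hF v (h5 v (by simp)), hF w (h5 w ?_)⟩
      rw [e2]
      simp
    · rw [e1] at h1
      rcases A with _ | ⟨a, A⟩
      · simpa using h1
      · simpa using h1
    · rw [e1] at h3
      exact (List.nodup_append.1 h3).1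
    · rw [e1] at h4
      exact (List.isChain_append.1 h4).1
    · intro u hu
      refine h5 u ?_
      rw [e1, List.mem_append]
      exact Or.inl hu
    · rw [hw]
      simp
    · exact (List.nodup_append.1 hn.1).2.1
    · exact (List.isChain_append.1 hc.1).2.1
    · intro u hu
      refine h5 u ?_
      rw [List.mem_append, List.mem_append]
      exact Or.inl (Or.inr hu)
    · rw [e2, List.getLast?_append_of_ne_nil _ (by simp)] at h2
      exact h2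
    · rw [e2] at h3
      exact (List.nodup_append.1 h3).2.1
    · rw [e2] at h4
      exact (List.isChain_append.1 h4).2.1
    · intro u hu
      refine h5 u ?_
      rw [e2, List.mem_append]
      exact Or.inr hu
  · refine Finset.sum_le_sum (fun i _ => ?_)
    obtain ⟨v, w⟩ := i
    simp only
    set S := {l : List V | ∃ A m E, l = A ++ m ++ E ∧ A ++ [v] ∈ Tr D p v ∧
      (m ∈ Tr D v w ∧ m ∈ B) ∧ w :: E ∈ Tr D w q} with hS
    have hex : ∀ l : S, ∃ x : Tr D p v × ({m | m ∈ Tr D v w ∧ m ∈ B} : Set (List V)) × Tr D w q,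
        ∃ A E, l.1 = A ++ x.2.1.1 ++ E ∧ x.1.1 = A ++ [v] ∧ x.2.2.1 = w :: E := by
      rintro ⟨l, A, m, E, h1, h2, h3, h4⟩
      exact ⟨(⟨_, h2⟩, ⟨_, h3⟩, ⟨_, h4⟩), A, E, h1, rfl, rfl⟩
    choose φ A E hφ1 hφ2 hφ3 using hex
    have hinj : Function.Injective φ := by
      intro l l' h
      have g2 := hφ2 l
      have g3 := hφ3 l
      have g1 := hφ1 l
      rw [h] at g1 g2 g3
      have g2' := hφ2 l'
      have g3' := hφ3 l'
      have g1' := hφ1 l'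
      rw [g2] at g2'
      rw [g3] at g3'
      have e1 : A l = A l' := (List.append_inj' g2' rfl).1
      have e2 : E l = E l' := by
        have := g3'
        simp only [List.cons.injEq, true_and] at this
        exact this
      apply Subtype.ext
      rw [g1, g1', e1, e2]
    have hwt : ∀ l : S, wt l.1 = wt (φ l).1.1 * (wt (φ l).2.1.1 * wt (φ l).2.2.1) := by
      intro l
      rw [hφ1 l, hφ2 l, hφ3 l]
      have hpos : 1 ≤ (φ l).2.1.1.length := by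
        have := (φ l).2.1.2.1.1
        rcases h : (φ l).2.1.1 with _ | ⟨a, t⟩
        · rw [h] at this
          simp at this
        · simp
      unfold wt
      rw [← pow_add, ← pow_add]
      congr 1
      simp only [List.length_append, List.length_cons, List.length_nil]
      omega
    have e0 : tot wt S = ∑' l : S, wt l.1 := by
      unfold tot
      exact (tsum_subtype S wt).symm
    rw [e0]
    calc ∑' l : S, wt l.1 = ∑' l : S, wt (φ l).1.1 * (wt (φ l).2.1.1 * wt (φ l).2.2.1) :=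
          tsum_congr hwt
      _ ≤ ∑' x : Tr D p v × ({m | m ∈ Tr D v w ∧ m ∈ B} : Set (List V)) × Tr D w q,
            wt x.1.1 * (wt x.2.1.1 * wt x.2.2.1) :=
          ENNReal.tsum_comp_le_tsum_of_injective hinj (fun x : Tr D p v ×
            ({m | m ∈ Tr D v w ∧ m ∈ B} : Set (List V)) × Tr D w q =>
            wt x.1.1 * (wt x.2.1.1 * wt x.2.2.1))
      _ = (∑' a : Tr D p v, wt a.1) * ((∑' b : ({m | m ∈ Tr D v w ∧ m ∈ B} : Set (List V)),
            wt b.1) * ∑' c : Tr D w q, wt c.1) := by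
          rw [ENNReal.tsum_prod', ← ENNReal.tsum_mul_right]
          refine tsum_congr (fun a => ?_)
          rw [ENNReal.tsum_prod', ← ENNReal.tsum_mul_right, ← ENNReal.tsum_mul_left]
          refine tsum_congr (fun b => ?_)
          change ∑' c : Tr D w q, wt a.1 * (wt b.1 * wt c.1) = _
          rw [ENNReal.tsum_mul_left, ENNReal.tsum_mul_left]
      _ = Z D p v * tot wt {m | m ∈ Tr D v w ∧ m ∈ B} * Z D w q := by
          have e1 : (∑' a : Tr D p v, wt a.1) = Z D p v := by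
            rw [← tot_wt]
            unfold tot
            exact tsum_subtype (Tr D p v) wt
          have e2 : (∑' a : Tr D w q, wt a.1) = Z D w q := by
            rw [← tot_wt]
            unfold tot
            exact tsum_subtype (Tr D w q) wt
          have e3 : (∑' b : ({m | m ∈ Tr D v w ∧ m ∈ B} : Set (List V)), wt b.1) =
              tot wt {m | m ∈ Tr D v w ∧ m ∈ B} := by
            unfold tot
            exact tsum_subtype _ wt
          rw [e1, e2, e3, mul_assoc]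

theorem bad_nil (C : ℕ) (t : ℝ) (ht : 0 ≤ t) : ¬ Bad C t [] := by
  rintro ⟨j, -, R, hR, h⟩
  have h0 : sup j R [] = 0 := by
    unfold sup
    simp
  rw [h0] at h
  have : (0 : ℝ) ≤ C * R ^ C * t := by positivity
  push_cast at h
  linarith

/-- **Theorem.** All pieces of the walk have few vertices close to their supporting lines. -/
theorem sub_all (W : Set ℂ) (hW : IsOpen W) (hc : IsConnected W) (a b : ℂ) (hab : a ≠ b)
    (ε ε' : ℝ) (hε : ε = 1 ∨ ε = -1) (hε' : ε' = 1 ∨ ε' = -1) (r₀ : ℝ) (hr₀ : 0 < r₀)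
    (ha : HD a ε r₀ ⊆ W) (hb : HD b ε' r₀ ⊆ W) (M : ℝ) :
    ∃ K : Set ℂ, K ⊆ W ∧ IsCompact K ∧ ∃ C : ℕ, 1 ≤ C ∧ ∀ δ : ℝ, 0 < δ → C * δ ≤ 1 →
      ∀ (D : Set V) (p q : V), Bd ε p → Bd ε' q →
      C * ‖(δ : ℂ) * emb p - a‖ ≤ 1 → C * ‖(δ : ℂ) * emb q - b‖ ≤ 1 →
      (∀ v : V, (δ : ℂ) * emb v ∈ K → v ∈ D) → Hd δ ε r₀ p ⊆ D → Hd δ ε' r₀ q ⊆ D →
      (∀ v ∈ D, ‖(δ : ℂ) * emb v‖ ≤ M) →
      0 < Z D p q ∧ Z D p q < ⊤ ∧ ∀ x : ℝ, 0 ≤ x →
      Pr D p q {l | ∃ m, m <:+: l ∧ ∃ j < 6, ∃ R : ℝ, 1 ≤ R ∧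
        C * R ^ C * (Real.log (1 / δ) ^ 2 + x) < (sup j R m : ℝ)} ≤
        ENNReal.ofReal (Real.exp (-x)) := by
  obtain ⟨K, hKW, hKc, C₁, hC₁, h⟩ := Pool.Agent.Y981.Sup.support_all W hW hc a b hab ε ε' hε hε'
    r₀ hr₀ ha hb (max M 0)
  have hM0 : 0 ≤ max M 0 := le_max_right _ _
  obtain ⟨K₂, hK₂, hbt⟩ := badtot (max M 0) hM0
  obtain ⟨K₃, hK₃, hq⟩ := Pool.Agent.Y981.Sup.quasi (max M 0) hM0
  have hC1 : (1 : ℝ) ≤ C₁ := by exact_mod_cast hC₁
  obtain ⟨A, hA⟩ := exists_nat_ge (K₂ + 2 * K₃ + C₁ + 20)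
  have hA20 : (20 : ℝ) ≤ A := by linarith
  obtain ⟨C, hAC, hCM, hC144, hbt2⟩ := hbt A (by exact_mod_cast hA20)
  have hACr : (A : ℝ) ≤ C := by exact_mod_cast hAC
  refine ⟨K, hKW, hKc, C, by omega, ?_⟩
  intro δ hδ hCδ D p q hp hq' hpa hqb hKD hpD hqD hDM
  have small : ∀ y c : ℝ, 0 ≤ y → (C : ℝ) * y ≤ 1 → c ≤ C → c * y ≤ 1 := by
    intro y c hy hy1 hcC
    exact (mul_le_mul_of_nonneg_right hcC hy).trans hy1
  have hC₁C : (C₁ : ℝ) ≤ C := by linarith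
  have hDM' : ∀ v ∈ D, ‖(δ : ℂ) * emb v‖ ≤ max M 0 := fun v hv => (hDM v hv).trans (le_max_left _ _)
  obtain ⟨hlow, hupp, -⟩ := (h δ hδ (small δ C₁ hδ.le hCδ hC₁C) D D p q hp hq'
    (small _ C₁ (norm_nonneg _) hpa hC₁C) (small _ C₁ (norm_nonneg _) hqb hC₁C) hKD hpD hqD
    subset_rfl).1 hDM'
  have hC144r : (144 : ℝ) ≤ C := by exact_mod_cast hC144
  have h144 : 144 * δ ≤ 1 := small δ 144 hδ.le hCδ hC144r
  have h8 : (8 * max M 0 + 7) * δ ≤ 1 := small δ _ hδ.le hCδ hCM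
  obtain ⟨hbox, hlog, -⟩ := mesh hM0 hδ h144 h8
  obtain ⟨Nb, hNb, hNbc⟩ := hbox D hDM'
  refine ⟨lt_of_lt_of_le (ENNReal.ofReal_pos.2 (by positivity)) hlow,
    lt_of_le_of_lt hupp ENNReal.ofReal_lt_top, ?_⟩
  intro x hx
  have hbt3 := hbt2 δ hδ hCδ D hDM'
  have hqq := hq δ hδ (by linarith) D hDM'
  have hL0 : Real.exp (4 * Real.log (1 / δ)) = (1 / δ) ^ 4 := by
    rw [show (4 : ℝ) * Real.log (1 / δ) = ((4 : ℕ) : ℝ) * Real.log (1 / δ) by norm_num,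
      Real.exp_nat_mul, Real.exp_log (by positivity)]
  rw [← hL0] at hNbc
  obtain ⟨L, hL⟩ : ∃ L : ℝ, L = Real.log (1 / δ) := ⟨_, rfl⟩
  rw [← hL] at hlog hbt3 hNbc ⊢
  have hLL : L ≤ L ^ 2 := by nlinarith
  obtain ⟨T, hT⟩ : ∃ T : ℝ, T = x + (K₂ + 2 * K₃ + C₁ + 20) * L ^ 2 := ⟨_, rfl⟩
  have hT1 : 1 ≤ T := by
    have h20 : 1 * 1 ≤ (K₂ + 2 * K₃ + C₁ + 20) * L ^ 2 :=
      mul_le_mul (by linarith) (by linarith) (by norm_num) (by linarith)
    linarith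
  have hTA : T ≤ A * (L ^ 2 + x) := by
    rw [hT]
    exact ax8 hA (by linarith) hx
  refine Pr_le (E' := {l | ∃ m, m <:+: l ∧ m ∈ {m : List V | Bad C (L ^ 2 + x) m}}) (S := T)
    (T := (K₂ + 2 * K₃) * L ^ 2 + 13 * L) hδ hlow (fun l _ hl => hl) ?_ ?_
  · have hB : ([] : List V) ∉ {m : List V | Bad C (L ^ 2 + x) m} :=
      bad_nil C _ (by positivity)
    refine (tot_sub (bx Nb 0) hNb _ hB).trans ?_
    have hone : ∀ i ∈ bx Nb 0 ×ˢ bx Nb 0, Z D p i.1 * tot wt {m | m ∈ Tr D i.1 i.2 ∧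
        m ∈ {m : List V | Bad C (L ^ 2 + x) m}} * Z D i.2 q ≤
        ENNReal.ofReal (Real.exp (-T + (K₂ + 2 * K₃) * L ^ 2 + 5 * L)) := by
      intro i _
      have e1 := hqq p i.1
      have e2 := hqq i.2 q
      rw [← hL] at e1 e2
      have e3 := hbt3 i.1 i.2 x T hx hT1 hTA
      refine (mul_le_mul' (mul_le_mul' e1 e3) e2).trans ?_
      rw [← ENNReal.ofReal_mul (Real.exp_pos _).le, ← Real.exp_add,
        ← ENNReal.ofReal_mul (Real.exp_pos _).le, ← Real.exp_add]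
      refine ENNReal.ofReal_le_ofReal (Real.exp_le_exp.2 (le_of_eq ?_))
      ring
    refine (Finset.sum_le_card_nsmul _ _ _ hone).trans ?_
    rw [nsmul_eq_mul, ← ENNReal.ofReal_natCast, ← ENNReal.ofReal_mul (Nat.cast_nonneg _)]
    refine ENNReal.ofReal_le_ofReal ?_
    rw [Finset.card_product]
    push_cast
    calc ((bx (Nb : ℤ) 0).card : ℝ) * ((bx (Nb : ℤ) 0).card : ℝ) *
          Real.exp (-T + (K₂ + 2 * K₃) * L ^ 2 + 5 * L) ≤
          Real.exp (4 * L) * Real.exp (4 * L) *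
          Real.exp (-T + (K₂ + 2 * K₃) * L ^ 2 + 5 * L) := by
          refine mul_le_mul_of_nonneg_right ?_ (Real.exp_pos _).le
          exact mul_le_mul hNbc hNbc (Nat.cast_nonneg _) (Real.exp_pos _).le
      _ = _ := by
          rw [← Real.exp_add, ← Real.exp_add]
          congr 1
          ring
  · rw [← hL, hT]
    have e1 : (C₁ : ℝ) * L ≤ C₁ * L ^ 2 := mul_le_mul_of_nonneg_left hLL (by linarith)
    linarith

end Pool.Agent.U372.PX
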