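import Pool.Agent.U372.PX.Cnt

/-! # Lower bounds for the two halves of the polygons -/

set_option autoImplicit false

namespace Pool.Agent.U372.PX

open scoped ENNReal Classical
open Pool.Agent.U372.HX
open Pool.Agent.W832.HR (emb lv HD Hd Bd Z xc lv_le lv_sub lv_emb s3_le s3_ge)

/-- the outer region -/
def DA (N : ℤ) : Set V := {v | (|v.1| ≤ 4 * N ∧ -(3 * N) ≤ lev v ∧ lev v ≤ 2 * N) ∧
  ¬ (|v.1| ≤ N ∧ 1 - 2 * N ≤ lev v ∧ lev v ≤ 0)}

/-- the inner region -/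
def DB (N : ℤ) : Set V := {v | |v.1| ≤ N ∧ 1 - 2 * N ≤ lev v ∧ lev v ≤ 0}

/-- open parallelograms -/
def Bo (a b c d : ℝ) : Set ℂ := {z | (a < lv z ∧ lv z < b) ∧ c < z.re ∧ z.re < d}

/-- the coordinate as a linear map -/
noncomputable def lvL : ℂ →ₗ[ℝ] ℝ :=
  (Real.sqrt 3 / 2) • Complex.reLm - (1 / 2 : ℝ) • Complex.imLm

theorem lvL_apply (z : ℂ) : lvL z = lv z := by
  unfold lvL lv
  simp only [LinearMap.sub_apply, LinearMap.smul_apply, Complex.reLm_coe, Complex.imLm_coe,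
    smul_eq_mul]
  ring

theorem lv_cont : Continuous lv := by
  unfold lv
  fun_prop

theorem Bo_open (a b c d : ℝ) : IsOpen (Bo a b c d) := by
  have h1 : IsOpen (lv ⁻¹' Set.Ioo a b) := isOpen_Ioo.preimage lv_cont
  have h2 : IsOpen (Complex.re ⁻¹' Set.Ioo c d) := isOpen_Ioo.preimage Complex.continuous_re
  exact h1.inter h2

theorem Bo_convex (a b c d : ℝ) : Convex ℝ (Bo a b c d) := by
  have h1 : Convex ℝ (lvL ⁻¹' Set.Ioo a b) := (convex_Ioo a b).linear_preimage lvL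
  have h2 : Convex ℝ (Complex.reLm ⁻¹' Set.Ioo c d) := (convex_Ioo c d).linear_preimage Complex.reLm
  have h3 : Bo a b c d = lvL ⁻¹' Set.Ioo a b ∩ Complex.reLm ⁻¹' Set.Ioo c d := by
    ext z
    simp only [Bo, Set.mem_ofPred_eq, Set.mem_inter_iff, Set.mem_preimage, Set.mem_Ioo, lvL_apply,
      Complex.reLm_coe]
  rw [h3]
  exact h1.inter h2

/-- points with given coordinates -/
noncomputable def pt (x l : ℝ) : ℂ := ⟨x, Real.sqrt 3 * x - 2 * l⟩

theorem lv_pt (x l : ℝ) : lv (pt x l) = l := by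
  unfold lv pt
  ring

theorem pt_mem {a b c d x l : ℝ} (h1 : a < l) (h2 : l < b) (h3 : c < x) (h4 : x < d) :
    pt x l ∈ Bo a b c d := by
  refine ⟨⟨?_, ?_⟩, h3, h4⟩ <;> rw [lv_pt] <;> assumption

theorem Bo_conn {a b c d : ℝ} (x l : ℝ) (h1 : a < l) (h2 : l < b) (h3 : c < x) (h4 : x < d) :
    IsConnected (Bo a b c d) :=
  ⟨⟨pt x l, pt_mem h1 h2 h3 h4⟩, (Bo_convex a b c d).isPreconnected⟩

/-- the outer region in the plane -/
def WA : Set ℂ := (Bo 0 1 (-3) 3 ∪ Bo (-2) 1 1 3) ∪ Bo (-2) (-(3 / 2)) (-3) 3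

theorem WA_open : IsOpen WA := ((Bo_open _ _ _ _).union (Bo_open _ _ _ _)).union (Bo_open _ _ _ _)

theorem WA_conn : IsConnected WA := by
  refine IsConnected.union ?_ (IsConnected.union ?_ (Bo_conn 0 (1 / 2) ?_ ?_ ?_ ?_)
    (Bo_conn 2 0 ?_ ?_ ?_ ?_)) (Bo_conn 0 (-(7 / 4)) ?_ ?_ ?_ ?_)
  · refine ⟨pt 2 (-(7 / 4)), Or.inr (pt_mem ?_ ?_ ?_ ?_), pt_mem ?_ ?_ ?_ ?_⟩ <;> norm_num
  · refine ⟨pt 2 (1 / 2), pt_mem ?_ ?_ ?_ ?_, pt_mem ?_ ?_ ?_ ?_⟩ <;> norm_num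
  all_goals norm_num

/-- the inner region in the plane -/
def WB : Set ℂ := Bo (-(3 / 2)) 0 (-(3 / 4)) (3 / 4)

theorem lev_bounds (v : V) : 3 / 4 * (lev v : ℝ) - 1 / 4 ≤ lv (emb v) ∧
    lv (emb v) ≤ 3 / 4 * (lev v : ℝ) := by
  rw [lv_emb]
  unfold lev
  push_cast
  split_ifs <;> constructor <;> linarith

theorem re_emb (v : V) : (emb v).re = Real.sqrt 3 / 2 * v.1 := rfl

theorem lv_smul (δ : ℝ) (v : V) : lv ((δ : ℂ) * emb v) = δ * lv (emb v) := by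
  unfold lv
  rw [Complex.re_ofReal_mul, Complex.im_ofReal_mul]
  ring

theorem re_smul (δ : ℝ) (v : V) : ((δ : ℂ) * emb v).re = δ * (Real.sqrt 3 / 2 * v.1) := by
  rw [Complex.re_ofReal_mul, re_emb]

theorem s3_ge' : 3 / 2 ≤ Real.sqrt 3 := by
  rw [Real.le_sqrt' (by norm_num)]
  norm_num

/-- the scaled bounds -/
theorem scaled {N : ℕ} (hN : 1 ≤ N) {v : V} {a b c d : ℝ}
    (h : (((1 / (N : ℝ) : ℝ)) : ℂ) * emb v ∈ Bo a b c d) :
    a * N < 3 / 4 * (lev v : ℝ) ∧ 3 / 4 * (lev v : ℝ) - 1 / 4 < b * N ∧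
      c * N < Real.sqrt 3 / 2 * v.1 ∧ Real.sqrt 3 / 2 * v.1 < d * N := by
  obtain ⟨⟨h1, h2⟩, h3, h4⟩ := h
  have hN' : (0 : ℝ) < N := by exact_mod_cast hN
  rw [lv_smul] at h1 h2
  rw [re_smul] at h3 h4
  rw [one_div, inv_mul_eq_div] at h1 h2 h3 h4
  rw [lt_div_iff₀ hN'] at h1 h3
  rw [div_lt_iff₀ hN'] at h2 h4
  obtain ⟨g1, g2⟩ := lev_bounds v
  exact ⟨by linarith, by linarith, h3, h4⟩

theorem WA_DA {N : ℕ} (hN : 1 ≤ N) {v : V} (h : (((1 / (N : ℝ) : ℝ)) : ℂ) * emb v ∈ WA) :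
    v ∈ DA N := by
  have hN' : (1 : ℝ) ≤ N := by exact_mod_cast hN
  have g1 := s3_ge'
  have g2 := s3_le
  rcases h with (h | h) | h
  · obtain ⟨h1, h2, h3, h4⟩ := scaled hN h
    have e1 : 0 < (lev v : ℝ) := by linarith
    have e2 : (lev v : ℝ) ≤ 2 * N := by linarith
    have e3 : |(v.1 : ℝ)| ≤ 4 * N := by
      rw [abs_le]
      constructor
      · by_contra hcon
        push Not at hcon
        nlinarith
      · by_contra hcon
        push Not at hcon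
        nlinarith
    have f1 : 0 < lev v := by exact_mod_cast e1
    have f2 : lev v ≤ 2 * N := by exact_mod_cast e2
    have f3 : |v.1| ≤ 4 * N := by exact_mod_cast e3
    exact ⟨⟨f3, by omega, f2⟩, fun hh => by omega⟩
  · obtain ⟨h1, h2, h3, h4⟩ := scaled hN h
    have e0 : (-(3 * N) : ℝ) ≤ (lev v : ℝ) := by linarith
    have e2 : (lev v : ℝ) ≤ 2 * N := by linarith
    have e3 : (v.1 : ℝ) ≤ 4 * N := by
      by_contra hcon
      push Not at hcon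
      nlinarith
    have e4 : (N : ℝ) < v.1 := by
      by_contra hcon
      push Not at hcon
      nlinarith
    have f1 : -(3 * (N : ℤ)) ≤ lev v := by exact_mod_cast e0
    have f2 : lev v ≤ 2 * N := by exact_mod_cast e2
    have f3 : v.1 ≤ 4 * N := by exact_mod_cast e3
    have f4 : (N : ℤ) < v.1 := by exact_mod_cast e4
    refine ⟨⟨by rw [abs_le]; omega, f1, f2⟩, fun hh => ?_⟩
    rw [abs_le] at hh
    omega
  · obtain ⟨h1, h2, h3, h4⟩ := scaled hN h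
    have e0 : (-(3 * N) : ℝ) ≤ (lev v : ℝ) := by linarith
    have e2 : (lev v : ℝ) < -(2 * N) + 1 := by linarith
    have e3 : |(v.1 : ℝ)| ≤ 4 * N := by
      rw [abs_le]
      constructor
      · by_contra hcon
        push Not at hcon
        nlinarith
      · by_contra hcon
        push Not at hcon
        nlinarith
    have f1 : -(3 * (N : ℤ)) ≤ lev v := by exact_mod_cast e0
    have f2 : lev v < -(2 * N) + 1 := by exact_mod_cast e2
    have f3 : |v.1| ≤ 4 * N := by exact_mod_cast e3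
    exact ⟨⟨f3, f1, by omega⟩, fun hh => by omega⟩

theorem WB_DB {N : ℕ} (hN : 1 ≤ N) {v : V} (h : (((1 / (N : ℝ) : ℝ)) : ℂ) * emb v ∈ WB) :
    v ∈ DB N := by
  have hN' : (1 : ℝ) ≤ N := by exact_mod_cast hN
  have g1 := s3_ge'
  have g2 := s3_le
  obtain ⟨h1, h2, h3, h4⟩ := scaled hN h
  have e0 : (-(2 * N) : ℝ) < (lev v : ℝ) := by linarith
  have e2 : (lev v : ℝ) < 1 := by linarith
  have e3 : |(v.1 : ℝ)| ≤ N := by
    rw [abs_le]
    constructor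
    · by_contra hcon
      push Not at hcon
      nlinarith
    · by_contra hcon
      push Not at hcon
      nlinarith
  have f1 : -(2 * (N : ℤ)) < lev v := by exact_mod_cast e0
  have f2 : lev v < 1 := by exact_mod_cast e2
  have f3 : |v.1| ≤ N := by exact_mod_cast e3
  exact ⟨f3, by omega, by omega⟩

theorem HD_bounds {a : ℂ} {ε : ℝ} {z : ℂ} (h : z ∈ HD a ε (1 / 2)) :
    |lv z - lv a| < 1 / 2 ∧ |z.re - a.re| < 1 / 2 ∧ 0 < ε * (lv z - lv a) := by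
  obtain ⟨h1, h2⟩ := h
  refine ⟨?_, ?_, h2⟩
  · rw [← lv_sub]
    exact lt_of_le_of_lt (lv_le _) h1
  · rw [← Complex.sub_re]
    exact lt_of_le_of_lt (Complex.abs_re_le_norm _) h1

theorem lv_zero : lv 0 = 0 := by
  unfold lv
  simp

/-- the second point -/
noncomputable def b3 : ℂ := ⟨0, 3⟩

theorem lv_b3 : lv b3 = -(3 / 2) := by
  unfold lv b3
  norm_num

theorem HD1 : HD 0 1 (1 / 2) ⊆ WA := by
  intro z hz
  obtain ⟨h1, h2, h3⟩ := HD_bounds hz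
  rw [lv_zero] at h1 h3
  rw [Complex.zero_re] at h2
  rw [abs_lt] at h1 h2
  exact Or.inl (Or.inl ⟨⟨by linarith, by linarith⟩, by linarith, by linarith⟩)

theorem HD2 : HD b3 (-1) (1 / 2) ⊆ WA := by
  intro z hz
  obtain ⟨h1, h2, h3⟩ := HD_bounds hz
  rw [lv_b3] at h1 h3
  have hb : b3.re = 0 := rfl
  rw [hb] at h2
  rw [abs_lt] at h1 h2
  exact Or.inr ⟨⟨by linarith, by linarith⟩, by linarith, by linarith⟩

theorem HD3 : HD 0 (-1) (1 / 2) ⊆ WB := by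
  intro z hz
  obtain ⟨h1, h2, h3⟩ := HD_bounds hz
  rw [lv_zero] at h1 h3
  rw [Complex.zero_re] at h2
  rw [abs_lt] at h1 h2
  exact ⟨⟨by linarith, by linarith⟩, by linarith, by linarith⟩

theorem HD4 : HD b3 1 (1 / 2) ⊆ WB := by
  intro z hz
  obtain ⟨h1, h2, h3⟩ := HD_bounds hz
  rw [lv_b3] at h1 h3
  have hb : b3.re = 0 := rfl
  rw [hb] at h2
  rw [abs_lt] at h1 h2
  exact ⟨⟨by linarith, by linarith⟩, by linarith, by linarith⟩

theorem Hd_bounds {N : ℕ} (hN : 1 ≤ N) {ε : ℝ} {p v : V} (h : v ∈ Hd (1 / (N : ℝ)) ε (1 / 2) p) :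
    |lv (emb v) - lv (emb p)| < N / 2 ∧ |(v.1 : ℝ) - p.1| < 2 / 3 * N ∧
      0 ≤ ε * (lv (emb v) - lv (emb p)) := by
  obtain ⟨h1, h2⟩ := h
  have hN' : (0 : ℝ) < N := by exact_mod_cast hN
  rw [← mul_sub, norm_mul, Complex.norm_real, Real.norm_of_nonneg (by positivity), one_div,
    inv_mul_eq_div, div_lt_iff₀ hN'] at h1
  refine ⟨?_, ?_, h2⟩
  · rw [← lv_sub]
    refine lt_of_le_of_lt (lv_le _) ?_
    linarith
  · have h3 := lt_of_le_of_lt (Complex.abs_re_le_norm _) h1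
    rw [Complex.sub_re, re_emb, re_emb, ← mul_sub, abs_mul, abs_of_nonneg (by positivity)] at h3
    have h4 := s3_ge'
    have h5 := abs_nonneg ((v.1 : ℝ) - p.1)
    nlinarith

theorem odd10 : Bd 1 ((1, 0) : V) := Or.inl ⟨rfl, by decide⟩
theorem even00 : Bd (-1) ((0, 0) : V) := Or.inr ⟨rfl, by decide⟩
theorem evenq (N : ℤ) : Bd (-1) ((0, 2 * N) : V) := Or.inr ⟨rfl, by simp⟩
theorem oddq (N : ℤ) : Bd 1 ((1, 2 * N) : V) := Or.inl ⟨rfl, by
  rw [Int.odd_iff]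
  simp only
  omega⟩

theorem lvp1 : lv (emb ((1, 0) : V)) = 3 / 4 := by
  rw [lv_emb, if_neg (by decide)]
  norm_num

theorem lvp0 : lv (emb ((0, 0) : V)) = -(1 / 4) := by
  rw [lv_emb, if_pos (by decide)]
  norm_num

theorem lvq0 (N : ℤ) : lv (emb ((0, 2 * N) : V)) = -(3 / 2 * N) - 1 / 4 := by
  rw [lv_emb, if_pos (by simp)]
  push_cast
  ring

theorem lvq1 (N : ℤ) : lv (emb ((1, 2 * N) : V)) = 3 / 4 - 3 / 2 * N := by
  rw [lv_emb, if_neg (by
    rw [Int.not_even_iff_odd, Int.odd_iff]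
    simp only
    omega)]
  push_cast
  ring

theorem Hd1 {N : ℕ} (hN : 3 ≤ N) : Hd (1 / (N : ℝ)) 1 (1 / 2) (1, 0) ⊆ DA N := by
  intro v hv
  obtain ⟨h1, h2, h3⟩ := Hd_bounds (by omega) hv
  obtain ⟨g1, g2⟩ := lev_bounds v
  rw [lvp1] at h1 h3
  have hN' : (3 : ℝ) ≤ N := by exact_mod_cast hN
  rw [abs_lt] at h1 h2
  push_cast at h2
  have e1 : (1 : ℝ) ≤ lev v := by linarith
  have e2 : (lev v : ℝ) ≤ 2 * N := by linarith
  have e3 : -(4 * N : ℝ) ≤ v.1 := by linarith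
  have e4 : (v.1 : ℝ) ≤ 4 * N := by linarith
  have f1 : 1 ≤ lev v := by exact_mod_cast e1
  have f2 : lev v ≤ 2 * N := by exact_mod_cast e2
  have f3 : -(4 * (N : ℤ)) ≤ v.1 := by exact_mod_cast e3
  have f4 : v.1 ≤ 4 * N := by exact_mod_cast e4
  exact ⟨⟨by rw [abs_le]; omega, by omega, f2⟩, fun hh => by omega⟩

theorem Hd2 {N : ℕ} (hN : 3 ≤ N) : Hd (1 / (N : ℝ)) (-1) (1 / 2) (0, 2 * N) ⊆ DA N := by
  intro v hv
  obtain ⟨h1, h2, h3⟩ := Hd_bounds (by omega) hv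
  obtain ⟨g1, g2⟩ := lev_bounds v
  rw [lvq0] at h1 h3
  have hN' : (3 : ℝ) ≤ N := by exact_mod_cast hN
  rw [abs_lt] at h1 h2
  push_cast at h1 h2 h3
  have e1 : (lev v : ℝ) ≤ -(2 * N) := by linarith
  have e2 : -(3 * N : ℝ) ≤ lev v := by linarith
  have e3 : -(4 * N : ℝ) ≤ v.1 := by linarith
  have e4 : (v.1 : ℝ) ≤ 4 * N := by linarith
  have f1 : lev v ≤ -(2 * N) := by exact_mod_cast e1
  have f2 : -(3 * (N : ℤ)) ≤ lev v := by exact_mod_cast e2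
  have f3 : -(4 * (N : ℤ)) ≤ v.1 := by exact_mod_cast e3
  have f4 : v.1 ≤ 4 * N := by exact_mod_cast e4
  exact ⟨⟨by rw [abs_le]; omega, f2, by omega⟩, fun hh => by omega⟩

theorem Hd3 {N : ℕ} (hN : 3 ≤ N) : Hd (1 / (N : ℝ)) (-1) (1 / 2) (0, 0) ⊆ DB N := by
  intro v hv
  obtain ⟨h1, h2, h3⟩ := Hd_bounds (by omega) hv
  obtain ⟨g1, g2⟩ := lev_bounds v
  rw [lvp0] at h1 h3
  have hN' : (3 : ℝ) ≤ N := by exact_mod_cast hN
  rw [abs_lt] at h1 h2
  push_cast at h2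
  have e1 : (lev v : ℝ) ≤ 0 := by linarith
  have e2 : -(2 * N : ℝ) < lev v := by linarith
  have e3 : -(N : ℝ) ≤ v.1 := by linarith
  have e4 : (v.1 : ℝ) ≤ N := by linarith
  have f1 : lev v ≤ 0 := by exact_mod_cast e1
  have f2 : -(2 * (N : ℤ)) < lev v := by exact_mod_cast e2
  have f3 : -(N : ℤ) ≤ v.1 := by exact_mod_cast e3
  have f4 : v.1 ≤ N := by exact_mod_cast e4
  exact ⟨by rw [abs_le]; omega, by omega, f1⟩

theorem Hd4 {N : ℕ} (hN : 3 ≤ N) : Hd (1 / (N : ℝ)) 1 (1 / 2) (1, 2 * N) ⊆ DB N := by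
  intro v hv
  obtain ⟨h1, h2, h3⟩ := Hd_bounds (by omega) hv
  obtain ⟨g1, g2⟩ := lev_bounds v
  rw [lvq1] at h1 h3
  have hN' : (3 : ℝ) ≤ N := by exact_mod_cast hN
  rw [abs_lt] at h1 h2
  push_cast at h1 h2 h3
  have e1 : (1 - 2 * N : ℝ) ≤ lev v := by linarith
  have e2 : (lev v : ℝ) < 1 := by linarith
  have e3 : -(N : ℝ) ≤ v.1 := by linarith
  have e4 : (v.1 : ℝ) ≤ N := by linarith
  have f1 : 1 - 2 * (N : ℤ) ≤ lev v := by exact_mod_cast e1
  have f2 : lev v < 1 := by exact_mod_cast e2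
  have f3 : -(N : ℤ) ≤ v.1 := by exact_mod_cast e3
  have f4 : v.1 ≤ N := by exact_mod_cast e4
  exact ⟨by rw [abs_le]; omega, f1, by omega⟩

/-- the distances of the end points -/
theorem near0 {N : ℕ} (hN : 1 ≤ N) (x : V) (hx : x = (1, 0) ∨ x = (0, 0)) :
    ‖(((1 / (N : ℝ) : ℝ)) : ℂ) * emb x - 0‖ ≤ 1 / N := by
  have hN' : (0 : ℝ) < N := by exact_mod_cast hN
  rw [sub_zero, norm_mul, Complex.norm_real, Real.norm_of_nonneg (by positivity)]
  have h1 : ‖emb x‖ ≤ 1 := by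
    refine (Complex.norm_le_abs_re_add_abs_im _).trans ?_
    have g2 := s3_le
    have g1 := s3_ge'
    rcases hx with rfl | rfl
    · unfold emb
      simp only [Int.cast_one, Int.cast_zero]
      rw [if_neg (by decide)]
      norm_num
      rw [abs_of_nonneg (by positivity)]
      linarith
    · unfold emb
      simp only [Int.cast_zero]
      rw [if_pos (by decide)]
      norm_num
  calc 1 / (N : ℝ) * ‖emb x‖ ≤ 1 / (N : ℝ) * 1 := mul_le_mul_of_nonneg_left h1 (by positivity)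
    _ = _ := mul_one _

theorem near3 {N : ℕ} (hN : 1 ≤ N) (x : V) (hx : x = (1, 2 * (N : ℤ)) ∨ x = (0, 2 * (N : ℤ))) :
    ‖(((1 / (N : ℝ) : ℝ)) : ℂ) * emb x - b3‖ ≤ 1 / N := by
  have hN' : (0 : ℝ) < N := by exact_mod_cast hN
  have e : (((1 / (N : ℝ) : ℝ)) : ℂ) * emb x - b3 =
      (((1 / (N : ℝ) : ℝ)) : ℂ) * (emb x - ⟨0, 3 * N⟩) := by
    have h : b3 = (((1 / (N : ℝ) : ℝ)) : ℂ) * ⟨0, 3 * N⟩ := by
      unfold b3
      apply Complex.ext
      · rw [Complex.re_ofReal_mul]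
        simp
      · rw [Complex.im_ofReal_mul]
        simp only
        field_simp
    rw [h]
    ring
  rw [e, norm_mul, Complex.norm_real, Real.norm_of_nonneg (by positivity)]
  have h1 : ‖emb x - ⟨0, 3 * N⟩‖ ≤ 1 := by
    refine (Complex.norm_le_abs_re_add_abs_im _).trans ?_
    have g2 := s3_le
    have g1 := s3_ge'
    rw [Complex.sub_re, Complex.sub_im]
    rcases hx with rfl | rfl
    · unfold emb
      simp only [Int.cast_one, Int.cast_mul, Int.cast_ofNat, Int.cast_natCast]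
      rw [if_neg (by
        rw [Int.not_even_iff_odd, Int.odd_iff]
        omega)]
      have e1 : (3 : ℝ) / 2 * (2 * N) + 0 - 3 * N = 0 := by ring
      rw [e1, abs_zero, add_zero, sub_zero, mul_one, abs_of_nonneg (by positivity)]
      linarith
    · unfold emb
      simp only [Int.cast_zero, Int.cast_mul, Int.cast_ofNat, Int.cast_natCast]
      rw [if_pos (by simp)]
      have e1 : (3 : ℝ) / 2 * (2 * N) + 1 / 2 - 3 * N = 1 / 2 := by ring
      rw [e1, mul_zero, sub_zero, abs_zero, zero_add]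
      norm_num
  calc 1 / (N : ℝ) * ‖emb x - ⟨0, 3 * N⟩‖ ≤ 1 / (N : ℝ) * 1 :=
        mul_le_mul_of_nonneg_left h1 (by positivity)
    _ = _ := mul_one _

theorem zero_ne_b3 : (0 : ℂ) ≠ b3 := by
  intro h
  have := congrArg Complex.im h
  unfold b3 at this
  simp at this

/-- **Lower bounds for the two halves.** -/
theorem halves : ∃ C : ℕ, 3 ≤ C ∧ ∀ N : ℕ, C ≤ N →
    ENNReal.ofReal ((1 / (N : ℝ)) ^ C) ≤ Z (DA N) (1, 0) (0, 2 * N) ∧
    ENNReal.ofReal ((1 / (N : ℝ)) ^ C) ≤ Z (DB N) (1, 2 * N) (0, 0) := by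
  obtain ⟨KA, hKA, -, CA, hCA, hA⟩ := Pool.Agent.Y981.Sup.low WA WA_open WA_conn 0 b3 zero_ne_b3 1
    (-1) (Or.inl rfl) (Or.inr rfl) (1 / 2) (by norm_num) HD1 HD2
  obtain ⟨KB, hKB, -, CB, hCB, hB⟩ := Pool.Agent.Y981.Sup.low WB (Bo_open _ _ _ _)
    (Bo_conn 0 (-1) (by norm_num) (by norm_num) (by norm_num) (by norm_num)) b3 0
    (Ne.symm zero_ne_b3) 1 (-1) (Or.inl rfl) (Or.inr rfl) (1 / 2) (by norm_num) HD4 HD3
  refine ⟨CA + CB + 3, by omega, fun N hN => ?_⟩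
  have hN1 : 1 ≤ N := by omega
  have hN' : (0 : ℝ) < N := by exact_mod_cast hN1
  have hCAN : (CA : ℝ) ≤ N := by
    have : CA ≤ N := by omega
    exact_mod_cast this
  have hCBN : (CB : ℝ) ≤ N := by
    have : CB ≤ N := by omega
    exact_mod_cast this
  have hδ1 : 1 / (N : ℝ) ≤ 1 := by
    rw [div_le_one hN']
    exact_mod_cast hN1
  have ub : ∀ (C : ℝ) (x : ℝ), 0 ≤ C → C ≤ N → x ≤ 1 / N → C * x ≤ 1 := by
    intro C x h0 h1 h2
    calc C * x ≤ C * (1 / N) := mul_le_mul_of_nonneg_left h2 h0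
      _ ≤ N * (1 / N) := mul_le_mul_of_nonneg_right h1 (by positivity)
      _ = 1 := by field_simp
  constructor
  · obtain ⟨-, h⟩ := hA (1 / N) (by positivity) (ub _ _ (by positivity) hCAN le_rfl) (DA N) (1, 0)
      (0, 2 * N) odd10 (evenq N) (ub _ _ (by positivity) hCAN (near0 hN1 _ (Or.inl rfl)))
      (ub _ _ (by positivity) hCAN (near3 hN1 _ (Or.inr rfl)))
      (fun v hv => WA_DA hN1 (hKA hv)) (Hd1 (by omega)) (Hd2 (by omega))
    refine le_trans (ENNReal.ofReal_le_ofReal ?_) (h _ subset_rfl)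
    exact pow_le_pow_of_le_one (by positivity) hδ1 (by omega)
  · obtain ⟨-, h⟩ := hB (1 / N) (by positivity) (ub _ _ (by positivity) hCBN le_rfl) (DB N)
      (1, 2 * N) (0, 0) (oddq N) even00 (ub _ _ (by positivity) hCBN (near3 hN1 _ (Or.inl rfl)))
      (ub _ _ (by positivity) hCBN (near0 hN1 _ (Or.inr rfl)))
      (fun v hv => WB_DB hN1 (hKB hv)) (Hd4 (by omega)) (Hd3 (by omega))
    refine le_trans (ENNReal.ofReal_le_ofReal ?_) (h _ subset_rfl)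
    exact pow_le_pow_of_le_one (by positivity) hδ1 (by omega)

end Pool.Agent.U372.PX
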