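import Pool.Agent.U372.HX.Local

/-! # Inserting a polygon below a locally lowest vertex of a walk -/

set_option autoImplicit false

namespace Pool.Agent.U372.PX

open scoped ENNReal Classical
open Pool.Agent.U372.HX

/-- the level -/
def lev (v : V) : ℤ := v.1 - v.2

theorem nbr_lev {p q : V} (h : Nbr p q) : lev q = lev p + 1 ∨ lev q = lev p - 1 := by
  unfold Nbr at h
  unfold lev
  omega

/-- the vertices below and beside `v` -/
def dn (v : V) : V := (v.1 - 1, v.2)
def dr (v : V) : V := (v.1, v.2 + 1)
def ur (v : V) : V := (v.1 + 1, v.2)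
def rr (v : V) : V := (v.1 + 1, v.2 + 1)

/-- closed walks below their first vertex `(0,0)`, which end in `(0,1)` -/
def Lp (N : ℕ) : Set (List V) :=
  {L | L.head? = some (0, 0) ∧ L.getLast? = some (0, 1) ∧ L.Nodup ∧ L.IsChain Nbr ∧
    (∀ v ∈ L, lev v ≤ 0 ∧ v ≠ (1, 1) ∧ cl (20 * N) (0, 0) v) ∧ ∃ v ∈ L, lev v ≤ -(N : ℤ)}

/-- translation -/
def sh (a : V) (L : List V) : List V := L.map (fun v => a + v)

theorem nbr_add {a p q : V} (ha : Even (a.1 + a.2)) (h : Nbr p q) : Nbr (a + p) (a + q) := by
  unfold Nbr at *
  simp only [Prod.fst_add, Prod.snd_add, Int.even_iff] at *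
  omega

theorem nbr_add_iff {a p q : V} (ha : Even (a.1 + a.2)) : Nbr (a + p) (a + q) ↔ Nbr p q := by
  refine ⟨fun h => ?_, nbr_add ha⟩
  have h1 : Even ((-a).1 + (-a).2) := by
    rw [Int.even_iff] at *
    simp only [Prod.fst_neg, Prod.snd_neg]
    omega
  have := nbr_add h1 h
  rwa [neg_add_cancel_left, neg_add_cancel_left] at this

theorem sh_chain {a : V} (ha : Even (a.1 + a.2)) {L : List V} (h : L.IsChain Nbr) :
    (sh a L).IsChain Nbr := by
  unfold sh
  rw [List.isChain_map]
  exact h.imp (fun p q hpq => nbr_add ha hpq)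

theorem sh_nodup {a : V} {L : List V} (h : L.Nodup) : (sh a L).Nodup :=
  h.map (add_right_injective a)

theorem mem_sh {a v : V} {L : List V} : v ∈ sh a L ↔ ∃ u ∈ L, a + u = v := by
  unfold sh
  rw [List.mem_map]

theorem sh_length {a : V} {L : List V} : (sh a L).length = L.length := by
  unfold sh
  rw [List.length_map]

theorem sh_inj {a : V} {L L' : List V} (h : sh a L = sh a L') : L = L' :=
  (List.map_injective_iff.2 (add_right_injective a)) h

/-- old piece -/
def old (v : V) (t : Bool) : List V := if t then [v, ur v, rr v] else [v, ur v]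

/-- new piece -/
def nw (v : V) (t : Bool) (L : List V) : List V :=
  v :: (L ++ dr v :: (if t then [rr v] else [rr v, ur v]))

theorem nw_last (v : V) (t : Bool) (L : List V) :
    (nw v t L).getLast? = some (if t then rr v else ur v) := by
  unfold nw
  cases t
  · rw [show v :: (L ++ dr v :: (if (false = true) then [rr v] else [rr v, ur v])) =
      (v :: (L ++ [dr v, rr v])) ++ [ur v] by simp, List.getLast?_concat]
    simp
  · rw [show v :: (L ++ dr v :: (if (true = true) then [rr v] else [rr v, ur v])) =
      (v :: (L ++ [dr v])) ++ [rr v] by simp, List.getLast?_concat]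
    simp

/-- the insertion, `g` is the orientation -/
def Ins (N : ℕ) (l : List V) (v : V) (t g : Bool) (L W : List V) : Prop :=
  L ∈ Lp N ∧ (∃ S T, (if g then l.reverse else l) = S ++ old v t ++ T ∧
      (if g then W.reverse else W) = S ++ nw v t (sh (dn v) L) ++ T) ∧
    W.Nodup ∧ W.IsChain Nbr

theorem cut_unique {α : Type*} {a : α} {L L' M M' : List α} (h1 : a ∉ L) (h2 : a ∉ L')
    (h : L ++ a :: M = L' ++ a :: M') : L = L' ∧ M = M' := by
  induction L generalizing L' with
  | nil =>
    rcases L' with _ | ⟨x, L'⟩
    · simpa using h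
    · simp only [List.nil_append, List.cons_append, List.cons.injEq] at h
      exact absurd (by rw [h.1]; simp) h2
  | cons x L ih =>
    rcases L' with _ | ⟨y, L'⟩
    · simp only [List.nil_append, List.cons_append, List.cons.injEq] at h
      exact absurd (by rw [← h.1]; simp) h1
    · simp only [List.cons_append, List.cons.injEq] at h
      obtain ⟨rfl, h⟩ := h
      simp only [List.mem_cons, not_or] at h1 h2
      obtain ⟨rfl, rfl⟩ := ih h1.2 h2.2 h
      exact ⟨rfl, rfl⟩

theorem nw_inj {v : V} {t : Bool} {A B : List V} {S T S' T' : List V}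
    (hn : (S ++ nw v t A ++ T).Nodup)
    (h : S ++ nw v t A ++ T = S' ++ nw v t B ++ T') : S = S' ∧ A = B ∧ T = T' := by
  have hn' : (S' ++ nw v t B ++ T').Nodup := h ▸ hn
  unfold nw at h hn hn'
  have e : ∀ (S A T : List V), S ++ (v :: (A ++ dr v :: (if t then [rr v] else [rr v, ur v]))) ++ T =
      S ++ v :: (A ++ dr v :: ((if t then [rr v] else [rr v, ur v]) ++ T)) := by
    intro S A T
    simp
  rw [e, e] at h
  rw [e] at hn hn'
  have f1 : ∀ {S M : List V}, (S ++ v :: M).Nodup → v ∉ S := by
    intro S M hn hv
    rw [List.nodup_append] at hn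
    exact hn.2.2 v hv v (by simp) rfl
  have f2 : ∀ {S A M : List V}, (S ++ v :: (A ++ dr v :: M)).Nodup → dr v ∉ A := by
    intro S A M hn hv
    rw [List.nodup_append] at hn
    have h2 := hn.2.1
    rw [List.nodup_cons, List.nodup_append] at h2
    exact h2.2.2.2 _ hv _ (by simp) rfl
  obtain ⟨h1, h2⟩ := cut_unique (f1 hn) (f1 hn') h
  obtain ⟨h3, h4⟩ := cut_unique (f2 hn) (f2 hn') h2
  exact ⟨h1, h3, List.append_cancel_left h4⟩

theorem Ins.inj {N : ℕ} {l l' : List V} {v : V} {t g : Bool} {L L' W : List V}
    (h : Ins N l v t g L W) (h' : Ins N l' v t g L' W) : l = l' ∧ L = L' := by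
  obtain ⟨-, ⟨S, T, h1, h2⟩, hn, -⟩ := h
  obtain ⟨-, ⟨S', T', h1', h2'⟩, -, -⟩ := h'
  have hn' : (if g then W.reverse else W).Nodup := by
    split_ifs
    · exact List.nodup_reverse.2 hn
    · exact hn
  rw [h2] at hn' h2'
  obtain ⟨rfl, hL, rfl⟩ := nw_inj hn' h2'
  refine ⟨?_, sh_inj hL⟩
  have e : (if g then l.reverse else l) = (if g then l'.reverse else l') := h1.trans h1'.symm
  split_ifs at e with hg
  · exact List.reverse_injective e
  · exact e

theorem Ins.length {N : ℕ} {l : List V} {v : V} {t g : Bool} {L W : List V}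
    (h : Ins N l v t g L W) : l.length + L.length ≤ W.length ∧ W.length ≤ l.length + L.length + 2 := by
  obtain ⟨-, ⟨S, T, h1, h2⟩, hn, -⟩ := h
  have e1 := congrArg List.length h1
  have e2 := congrArg List.length h2
  have f1 : (if g then l.reverse else l).length = l.length := by split_ifs <;> simp
  have f2 : (if g then W.reverse else W).length = W.length := by split_ifs <;> simp
  rw [f1] at e1
  rw [f2] at e2
  unfold old at e1
  unfold nw at e2
  simp only [List.length_append, List.length_cons, sh_length] at e1 e2
  cases t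
  · simp only [Bool.false_eq_true, if_false, List.length_cons, List.length_nil] at e1 e2
    omega
  · simp only [if_true, List.length_cons, List.length_nil] at e1 e2
    omega

/-- the vertices of the new walk -/
theorem Ins.mem {N : ℕ} {l : List V} {v : V} {t g : Bool} {L W : List V}
    (h : Ins N l v t g L W) {u : V} (hu : u ∈ W) :
    u ∈ l ∨ u = dr v ∨ u = rr v ∨ u ∈ sh (dn v) L := by
  obtain ⟨-, ⟨S, T, h1, h2⟩, -⟩ := h
  have hu' : u ∈ (if g then W.reverse else W) := by split_ifs <;> simpa using hu
  have hl : ∀ x, x ∈ (if g then l.reverse else l) → x ∈ l := by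
    intro x hx
    split_ifs at hx <;> simpa using hx
  rw [h2] at hu'
  have hold : ∀ x ∈ S ++ old v t ++ T, x ∈ l := fun x hx => hl x (h1 ▸ hx)
  simp only [List.mem_append] at hu' hold
  rcases hu' with (hu' | hu') | hu'
  · exact Or.inl (hold u (Or.inl (Or.inl hu')))
  · unfold nw at hu'
    simp only [List.mem_cons, List.mem_append] at hu'
    rcases hu' with rfl | hu' | rfl | hu'
    · left
      refine hold _ (Or.inl (Or.inr ?_))
      unfold old
      split_ifs <;> simp
    · exact Or.inr (Or.inr (Or.inr hu'))
    · exact Or.inr (Or.inl rfl)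
    · split_ifs at hu' with ht
      · rw [List.mem_singleton] at hu'
        exact Or.inr (Or.inr (Or.inl hu'))
      · simp only [List.mem_cons, List.not_mem_nil, or_false] at hu'
        rcases hu' with rfl | rfl
        · exact Or.inr (Or.inr (Or.inl rfl))
        · left
          refine hold _ (Or.inl (Or.inr ?_))
          unfold old
          rw [if_neg ht]
          simp
  · exact Or.inl (hold u (Or.inr hu'))

/-- the old vertices remain, with at most one exception -/
theorem Ins.mem_old {N : ℕ} {l : List V} {v : V} {t g : Bool} {L W : List V}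
    (h : Ins N l v t g L W) {u : V} (hu : u ∈ l) : u ∈ W ∨ u = ur v := by
  obtain ⟨-, ⟨S, T, h1, h2⟩, -⟩ := h
  have hu' : u ∈ (if g then l.reverse else l) := by split_ifs <;> simpa using hu
  have hl : ∀ x, x ∈ (if g then W.reverse else W) → x ∈ W := by
    intro x hx
    split_ifs at hx <;> simpa using hx
  rw [h1] at hu'
  have hnew : ∀ x ∈ S ++ nw v t (sh (dn v) L) ++ T, x ∈ W := fun x hx => hl x (h2 ▸ hx)
  simp only [List.mem_append] at hu' hnew
  rcases hu' with (hu' | hu') | hu'
  · exact Or.inl (hnew u (Or.inl (Or.inl hu')))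
  · unfold old at hu'
    have hv : v ∈ W := by
      refine hnew _ (Or.inl (Or.inr ?_))
      unfold nw
      simp
    split_ifs at hu' with ht
    · simp only [List.mem_cons, List.not_mem_nil, or_false] at hu'
      rcases hu' with rfl | rfl | rfl
      · exact Or.inl hv
      · exact Or.inr rfl
      · left
        refine hnew _ (Or.inl (Or.inr ?_))
        unfold nw
        rw [if_pos ht]
        simp
    · simp only [List.mem_cons, List.not_mem_nil, or_false] at hu'
      rcases hu' with rfl | rfl
      · exact Or.inl hv
      · exact Or.inr rfl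
  · exact Or.inl (hnew u (Or.inr hu'))

theorem Ins.v_mem {N : ℕ} {l : List V} {v : V} {t g : Bool} {L W : List V}
    (h : Ins N l v t g L W) : v ∈ W ∧ ∀ u ∈ sh (dn v) L, u ∈ W := by
  obtain ⟨-, ⟨S, T, h1, h2⟩, -⟩ := h
  have hl : ∀ x, x ∈ (if g then W.reverse else W) → x ∈ W := by
    intro x hx
    split_ifs at hx <;> simpa using hx
  constructor
  · refine hl v ?_
    rw [h2]
    unfold nw
    simp
  · intro u hu
    refine hl u ?_
    rw [h2]
    unfold nw
    simp [hu]

theorem Ins.ends {N : ℕ} {l : List V} {v : V} {t g : Bool} {L W : List V}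
    (h : Ins N l v t g L W) : W.head? = l.head? ∧ W.getLast? = l.getLast? := by
  obtain ⟨-, ⟨S, T, h1, h2⟩, -⟩ := h
  have key : ∀ l W : List V, l = S ++ old v t ++ T → W = S ++ nw v t (sh (dn v) L) ++ T →
      W.head? = l.head? ∧ W.getLast? = l.getLast? := by
    rintro l W rfl rfl
    have o1 : old v t ≠ [] := by unfold old; split_ifs <;> simp
    have o2 : nw v t (sh (dn v) L) ≠ [] := by unfold nw; simp
    have o3 : (old v t).head? = some v := by unfold old; split_ifs <;> simp
    have o4 : (nw v t (sh (dn v) L)).head? = some v := by unfold nw; simp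
    have o5 : (old v t).getLast? = some (if t then rr v else ur v) := by
      unfold old
      split_ifs <;> simp
    have o6 : (nw v t (sh (dn v) L)).getLast? = some (if t then rr v else ur v) :=
      nw_last _ _ _
    constructor
    · rcases S with _ | ⟨x, S⟩
      · rw [List.nil_append, List.nil_append, List.head?_append_of_ne_nil _ o1,
          List.head?_append_of_ne_nil _ o2, o3, o4]
      · simp
    · rcases List.eq_nil_or_concat T with rfl | ⟨T', x, rfl⟩
      · rw [List.append_nil, List.append_nil, List.getLast?_append_of_ne_nil _ o1,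
          List.getLast?_append_of_ne_nil _ o2, o5, o6]
      · rw [List.getLast?_append_of_ne_nil _ (by simp), List.getLast?_append_of_ne_nil _ (by simp)]
  have h3 := key _ _ h1 h2
  cases g
  · simpa using h3
  · simp only [if_true, List.head?_reverse, List.getLast?_reverse] at h3
    exact ⟨h3.2, h3.1⟩

/-- **Existence of the insertion** at a locally lowest vertex. -/
theorem ins_exists {N : ℕ} {l : List V} (hn : l.Nodup) (hc : l.IsChain Nbr) {v : V}
    (hv : Inn l v) (hw : rr v ∈ l → Inn l (rr v))
    (hlow : ∀ u ∈ l, |u.2 - v.2| ≤ 20 * N + 2 → lev v ≤ lev u) :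
    Odd (v.1 + v.2) ∧ ∃ t g, ∀ L ∈ Lp N, ∃ W, Ins N l v t g L W := by
  obtain ⟨x, y⟩ := v
  -- parity
  have hodd : Odd (x + y) := by
    by_contra hev
    rw [Int.not_odd_iff_even, Int.even_iff] at hev
    obtain ⟨a, b, hab⟩ := hv
    obtain ⟨h1, h2, h3, h4, h5⟩ := inn_nbrs hn hc hab
    have ka := hlow a h4.right (by
      have := h1.cl.2
      rw [abs_le] at this ⊢
      constructor <;> push_cast <;> simp only at this ⊢ <;> omega)
    have kb := hlow b h5.right (by
      have := h2.cl.2
      rw [abs_le] at this ⊢
      constructor <;> push_cast <;> simp only at this ⊢ <;> omega)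
    obtain ⟨a1, a2⟩ := a
    obtain ⟨b1, b2⟩ := b
    unfold Nbr at h1 h2
    unfold lev at ka kb
    simp only [ne_eq, Prod.mk.injEq, Int.even_iff] at h1 h2 h3 ka kb
    omega
  refine ⟨hodd, ?_⟩
  rw [Int.odd_iff] at hodd
  have hfree : ∀ u : V, lev u < x - y → |u.2 - y| ≤ 20 * N + 2 → u ∉ l := by
    intro u hu h1 h2
    have := hlow u h2 h1
    unfold lev at this hu
    simp only at this
    omega
  have n1 : Nbr (x, y) (dn (x, y)) := by
    unfold Nbr dn
    simp
  have n2 : Nbr (x, y) (ur (x, y)) := by
    unfold Nbr ur
    simp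
  have n3 : Nbr (rr (x, y)) (ur (x, y)) := by
    refine Or.inr ⟨rfl, Or.inr ⟨rfl, ?_⟩⟩
    unfold ur
    rw [Int.even_iff]
    simp only
    omega
  have n4 : Nbr (rr (x, y)) (dr (x, y)) := by
    unfold Nbr dr rr
    simp
  have fd : dn (x, y) ∉ l := by
    refine hfree _ ?_ ?_
    · unfold lev dn
      simp only
      omega
    · unfold dn
      simp only [sub_self, abs_zero]
      positivity
  have fr : dr (x, y) ∉ l := by
    refine hfree _ ?_ ?_
    · unfold lev dr
      simp only
      omega
    · unfold dr
      simp only [add_sub_cancel_left, abs_one]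
      have : (0 : ℤ) ≤ N := Int.natCast_nonneg N
      omega
  have c1 : Con l (x, y) (ur (x, y)) := con_of_free hn hc hv n1 fd n2 (by
    unfold ur dn
    simp only [ne_eq, Prod.mk.injEq]
    omega)
  -- the pattern and the orientation
  obtain ⟨t, g, S, T, hST, hrr⟩ : ∃ (t g : Bool) (S T : List V),
      (if g then l.reverse else l) = S ++ old (x, y) t ++ T ∧ (t = false → rr (x, y) ∉ l) := by
    have rev : ∀ {A : List V}, A <:+: l → A.reverse <:+: l.reverse := fun h => by
      rwa [List.reverse_infix]
    by_cases hr : rr (x, y) ∈ l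
    · have c2 : Con l (rr (x, y)) (ur (x, y)) := con_of_free hn hc (hw hr) n4 fr n3 (by
        unfold ur dr
        simp only [ne_eq, Prod.mk.injEq]
        omega)
      rcases arc3 hn (by unfold rr; simp only [ne_eq, Prod.mk.injEq]; omega) c1 c2.symm with k | k
      · obtain ⟨S, T, h⟩ := k
        exact ⟨true, false, S, T, by simpa [old] using h.symm, by simp⟩
      · obtain ⟨S, T, h⟩ := rev k
        exact ⟨true, true, S, T, by simpa [old] using h.symm, by simp⟩
    · rcases c1 with k | k
      · obtain ⟨S, T, h⟩ := k
        exact ⟨false, false, S, T, by simpa [old] using h.symm, fun _ => hr⟩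
      · obtain ⟨S, T, h⟩ := rev k
        exact ⟨false, true, S, T, by simpa [old] using h.symm, fun _ => hr⟩
  refine ⟨t, g, fun L hL => ?_⟩
  have hL' := hL
  obtain ⟨l1, l2, l3, l4, l5, l6⟩ := hL
  have hde : Even ((dn (x, y)).1 + (dn (x, y)).2) := by
    unfold dn
    rw [Int.even_iff]
    simp only
    omega
  -- the shifted polygon is outside of `l`
  have hsh : ∀ u ∈ sh (dn (x, y)) L, lev u < x - y ∧ |u.2 - y| ≤ 20 * N ∧ u ≠ dr (x, y) := by
    intro u hu
    obtain ⟨u', hu', rfl⟩ := mem_sh.1 hu
    obtain ⟨g1, g2, g3⟩ := l5 u' hu'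
    obtain ⟨a, b⟩ := u'
    unfold lev cl at *
    unfold dn dr
    simp only [Prod.mk_add_mk, ne_eq, Prod.mk.injEq, abs_le] at *
    refine ⟨by omega, by omega, by omega⟩
  have hshl : ∀ u ∈ sh (dn (x, y)) L, u ∉ l := fun u hu => by
    obtain ⟨g1, g2, g3⟩ := hsh u hu
    exact hfree u g1 (by omega)
  set l' := if g then l.reverse else l with hl'
  have hn' : l'.Nodup := by
    rw [hl']
    split_ifs
    · exact List.nodup_reverse.2 hn
    · exact hn
  have hc' : l'.IsChain Nbr := by
    rw [hl']
    split_ifs
    · rw [List.isChain_reverse]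
      exact hc.imp (fun a b h => h.symm)
    · exact hc
  have hmem : ∀ u, u ∈ l' ↔ u ∈ l := by
    intro u
    rw [hl']
    split_ifs <;> simp
  have onil : old (x, y) t ≠ [] := by unfold old; split_ifs <;> simp
  have nnil : nw (x, y) t (sh (dn (x, y)) L) ≠ [] := by unfold nw; simp
  have Lnil : sh (dn (x, y)) L ≠ [] := by
    intro h
    have := congrArg List.length h
    rw [sh_length] at this
    rcases L with _ | ⟨a, L⟩
    · simp at l1
    · simp at this
  have shead : (sh (dn (x, y)) L).head? = some (dn (x, y)) := by
    unfold sh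
    rw [List.head?_map, l1]
    simp
  have slast : (sh (dn (x, y)) L).getLast? = some ((x - 1, y + 1) : V) := by
    unfold sh
    rw [List.getLast?_map, l2]
    unfold dn
    simp
  have o3 : (old (x, y) t).head? = (nw (x, y) t (sh (dn (x, y)) L)).head? := by
    unfold old nw
    split_ifs <;> simp
  have o5 : (old (x, y) t).getLast? = (nw (x, y) t (sh (dn (x, y)) L)).getLast? := by
    rw [nw_last]
    unfold old
    split_ifs <;> simp
  have nchain : (nw (x, y) t (sh (dn (x, y)) L)).IsChain Nbr := by
    unfold nw
    rw [List.isChain_cons, List.isChain_append]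
    refine ⟨?_, sh_chain hde l4, ?_, ?_⟩
    · intro b hb
      rw [List.head?_append_of_ne_nil _ Lnil, shead] at hb
      simp only [Option.mem_def, Option.some.injEq] at hb
      rw [← hb]
      exact n1
    · split_ifs
      · simp only [List.isChain_cons_cons, List.isChain_singleton, and_true]
        exact n4.symm
      · simp only [List.isChain_cons_cons, List.isChain_singleton, and_true]
        exact ⟨n4.symm, n3⟩
    · intro a ha b hb
      rw [slast] at ha
      simp only [Option.mem_def, Option.some.injEq, List.head?_cons] at ha hb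
      rw [← ha, ← hb]
      unfold Nbr dr
      simp
  have nnodup : (nw (x, y) t (sh (dn (x, y)) L)).Nodup := by
    unfold nw
    rw [List.nodup_cons, List.nodup_append]
    have hlevr : ∀ u : V, u ∈ (if t then [rr (x, y)] else [rr (x, y), ur (x, y)]) →
        u = rr (x, y) ∨ u = ur (x, y) := by
      intro u hu
      split_ifs at hu <;> simp at hu <;> tauto
    refine ⟨?_, sh_nodup l3, ?_, ?_⟩
    · intro h
      rw [List.mem_append, List.mem_cons] at h
      rcases h with h | h | h
      · have := (hsh _ h).1
        unfold lev at this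
        simp only at this
        omega
      · unfold dr at h
        simp only [Prod.mk.injEq] at h
        omega
      · rcases hlevr _ h with h | h
        · unfold rr at h
          simp only [Prod.mk.injEq] at h
          omega
        · unfold ur at h
          simp only [Prod.mk.injEq] at h
          omega
    · split_ifs
      · unfold dr rr
        simp only [List.nodup_cons, List.mem_cons, Prod.mk.injEq, List.not_mem_nil, or_false,
          not_false_eq_true, List.nodup_nil, and_true]
        omega
      · unfold dr rr ur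
        simp only [List.nodup_cons, List.mem_cons, Prod.mk.injEq, List.not_mem_nil, or_false,
          not_false_eq_true, List.nodup_nil, and_true]
        omega
    · rintro a ha b hb rfl
      rw [List.mem_cons] at hb
      obtain ⟨g1, g2, g3⟩ := hsh a ha
      rcases hb with hb | hb
      · exact g3 hb
      · rcases hlevr _ hb with h | h
        · rw [h] at g1
          unfold lev rr at g1
          simp only at g1
          omega
        · rw [h] at g1
          unfold lev ur at g1
          simp only at g1
          omega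
  have hW1 : (S ++ nw (x, y) t (sh (dn (x, y)) L) ++ T).Nodup := by
    refine nodup_swap nnodup (hST ▸ hn') ?_
    intro u hu huo
    rw [← hST, hmem]
    unfold nw at hu
    rw [List.mem_cons, List.mem_append, List.mem_cons] at hu
    rcases hu with rfl | hu | rfl | hu
    · exfalso
      apply huo
      unfold old
      split_ifs <;> simp
    · exact hshl u hu
    · exact fr
    · cases t
      · simp only [Bool.false_eq_true, if_false, List.mem_cons, List.not_mem_nil, or_false] at hu
        rcases hu with rfl | rfl
        · exact hrr rfl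
        · exfalso
          apply huo
          unfold old
          simp
      · simp only [if_true, List.mem_cons, List.not_mem_nil, or_false] at hu
        exfalso
        apply huo
        unfold old
        simp [hu]
  have hW2 : (S ++ nw (x, y) t (sh (dn (x, y)) L) ++ T).IsChain Nbr :=
    chain_swap onil nnil o3 o5 nchain (hST ▸ hc')
  set W' := S ++ nw (x, y) t (sh (dn (x, y)) L) ++ T with hW'
  refine ⟨if g then W'.reverse else W', hL', ⟨S, T, hST, ?_⟩, ?_, ?_⟩
  · cases g <;> simp [hW']
  · split_ifs
    · exact List.nodup_reverse.2 hW1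
    · exact hW1
  · split_ifs
    · rw [List.isChain_reverse]
      exact hW2.imp (fun a b h => h.symm)
    · exact hW2

end Pool.Agent.U372.PX
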