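import Pool.Agent.U372.PX.Geo

/-! # The total weight of the polygons -/

set_option autoImplicit false

namespace Pool.Agent.U372.PX

open scoped ENNReal Classical
open Pool.Agent.U372.HX
open Pool.Agent.W832.HR (emb lv HD Hd Bd Z xc lv_le lv_sub lv_emb s3_le s3_ge)

theorem rot_eq {l₁ l₂ : List V} (h : l₁ ~r l₂) (hn : l₂.Nodup) (hh : l₁.head? = l₂.head?) :
    l₁ = l₂ := by
  have hn1 : l₁.Nodup := h.nodup_iff.2 hn
  obtain ⟨n, hn2⟩ := h
  rcases Nat.eq_zero_or_pos l₁.length with h0 | hpos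
  · have : l₁ = [] := List.length_eq_zero_iff.1 h0
    subst this
    simpa using hn2
  · have hk : n % l₁.length < l₁.length := Nat.mod_lt _ hpos
    rw [← hn2, ← List.rotate_mod, List.head?_rotate hk, List.head?_eq_getElem?,
      List.getElem?_eq_getElem hpos, List.getElem?_eq_getElem hk, Option.some.injEq,
      hn1.getElem_inj_iff] at hh
    rw [← hn2, ← List.rotate_mod, ← hh, List.rotate_zero]

/-- closed walks -/
def CC (c : List V) : Prop := c.IsChain Nbr ∧ ∀ a ∈ c.getLast?, ∀ b ∈ c.head?, Nbr a b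

theorem CC.rot {s u : List V} (h : CC (s ++ u)) : CC (u ++ s) := by
  rcases List.eq_nil_or_concat s with rfl | ⟨s', x, rfl⟩
  · simpa using h
  rcases List.eq_nil_or_concat u with rfl | ⟨u', y, rfl⟩
  · simpa using h
  rw [List.concat_eq_append, List.concat_eq_append] at *
  obtain ⟨h1, h2⟩ := h
  rw [List.isChain_append] at h1
  obtain ⟨g1, g2, g3⟩ := h1
  have e1 : ∀ A B : List V, B ≠ [] → (A ++ B).getLast? = B.getLast? := fun A B hB =>
    List.getLast?_append_of_ne_nil _ hB
  have e2 : ∀ A B : List V, A ≠ [] → (A ++ B).head? = A.head? := fun A B hA =>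
    List.head?_append_of_ne_nil _ hA
  have n1 : s' ++ [x] ≠ [] := by simp
  have n2 : u' ++ [y] ≠ [] := by simp
  rw [e1 _ _ n2, e2 _ _ n1] at h2
  refine ⟨?_, ?_⟩
  · rw [List.isChain_append]
    exact ⟨g2, g1, h2⟩
  · rw [e1 _ _ n1, e2 _ _ n2]
    exact g3

/-- **Re-rooting** at the top. -/
theorem root {c : List V} (hn : c.Nodup) (hc : CC c) (hlen : 3 ≤ c.length) :
    ∃ (t : V) (o : Bool) (L : List V), t ∈ c ∧ Even (t.1 + t.2) ∧
      L ~r (if o then c.reverse else c) ∧ L.head? = some t ∧ L.getLast? = some (t.1, t.2 + 1) ∧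
      L.IsChain Nbr ∧ (∀ v ∈ c, lev v ≤ lev t) ∧ (t.1 + 1, t.2 + 1) ∉ c := by
  have hne : c.toFinset.Nonempty := by
    rcases c with _ | ⟨a, c⟩
    · simp at hlen
    · exact ⟨a, by simp⟩
  obtain ⟨t0, ht0, hmax0⟩ := c.toFinset.exists_max_image lev hne
  obtain ⟨t, ht, hmax⟩ := (c.toFinset.filter (fun v => lev v = lev t0)).exists_max_image
    (fun v => v.2) ⟨t0, by rw [Finset.mem_filter]; exact ⟨ht0, rfl⟩⟩
  rw [Finset.mem_filter, List.mem_toFinset] at ht
  obtain ⟨htc, htl⟩ := ht
  have htop : ∀ v ∈ c, lev v ≤ lev t := by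
    intro v hv
    rw [htl]
    exact hmax0 v (List.mem_toFinset.2 hv)
  have hright : (t.1 + 1, t.2 + 1) ∉ c := by
    intro h
    have h1 := hmax (t.1 + 1, t.2 + 1) (by
      rw [Finset.mem_filter, List.mem_toFinset]
      refine ⟨h, ?_⟩
      rw [← htl]
      unfold lev
      simp only
      omega)
    simp only at h1
    omega
  obtain ⟨s, u, hsu⟩ := List.append_of_mem htc
  -- the rotated list
  have hrot : (t :: u) ++ s ~r c := by
    rw [hsu]
    exact List.isRotated_append
  have hcc : CC ((t :: u) ++ s) := by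
    rw [hsu] at hc
    exact hc.rot
  have hn' : ((t :: u) ++ s).Nodup := hrot.nodup_iff.2 hn
  have hlen' : 3 ≤ ((t :: u) ++ s).length := by rw [hrot.perm.length_eq]; exact hlen
  have hmem : ∀ v, v ∈ (t :: u) ++ s ↔ v ∈ c := fun v => hrot.mem_iff
  rw [List.cons_append] at hrot hcc hn' hlen' hmem
  obtain ⟨r, hr⟩ : ∃ r, r = u ++ s := ⟨_, rfl⟩
  rw [← hr] at hrot hcc hn' hlen' hmem
  rcases r with _ | ⟨x, m⟩
  · simp at hlen'
  rcases List.eq_nil_or_concat m with rfl | ⟨m', y, rfl⟩
  · simp at hlen'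
  simp only [List.concat_eq_append] at hrot hcc hn' hlen' hmem
  obtain ⟨k1, k2⟩ := hcc
  have hx : Nbr t x := by
    rw [List.isChain_cons_cons] at k1
    exact k1.1
  have hy : Nbr y t := by
    refine k2 y ?_ t (by simp)
    rw [← List.cons_append, ← List.cons_append, List.getLast?_concat]
    simp
  have hxy : x ≠ y := by
    rintro rfl
    simp at hn'
  have lx := htop x ((hmem x).1 (by simp))
  have ly := htop y ((hmem y).1 (by simp))
  have hfacts : Even (t.1 + t.2) ∧ ((y = (t.1, t.2 + 1)) ∨ (x = (t.1, t.2 + 1))) := by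
    obtain ⟨t1, t2⟩ := t
    obtain ⟨x1, x2⟩ := x
    obtain ⟨y1, y2⟩ := y
    unfold Nbr at hx hy
    unfold lev at lx ly
    simp only [ne_eq, Prod.mk.injEq, Int.even_iff] at hx hy hxy lx ly ⊢
    omega
  obtain ⟨hev, hcase⟩ := hfacts
  rcases hcase with hcase | hcase
  · refine ⟨t, false, t :: x :: (m' ++ [y]), htc, hev, ?_, by simp, ?_, k1, htop, hright⟩
    · simpa using hrot
    · rw [← hcase, ← List.cons_append, ← List.cons_append, List.getLast?_concat]
  · refine ⟨t, true, t :: (x :: (m' ++ [y])).reverse, htc, hev, ?_, by simp, ?_, ?_, htop, hright⟩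
    · simp only [if_true]
      have h1 := hrot.reverse
      refine List.IsRotated.trans ?_ h1
      rw [List.reverse_cons (a := t)]
      rw [show t :: (x :: (m' ++ [y])).reverse = [t] ++ (x :: (m' ++ [y])).reverse from rfl]
      exact List.isRotated_append
    · rw [← hcase, List.reverse_cons, ← List.cons_append, List.getLast?_concat]
    · rw [List.isChain_cons]
      constructor
      · intro b hb
        simp only [List.reverse_cons, List.reverse_append, List.reverse_nil, List.nil_append,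
          List.cons_append, List.head?_cons, Option.mem_def, Option.some.injEq,
          List.singleton_append] at hb
        rw [← hb]
        exact hy.symm
      · rw [List.isChain_reverse]
        rw [List.isChain_cons] at k1
        exact k1.2.imp (fun a b (h : Nbr a b) => h.symm)

theorem poly_mem {N : ℕ} (hN : 1 ≤ N) {A B : List V} (hA : A ∈ Tr (DA N) (1, 0) (0, 2 * N))
    (hB : B ∈ Tr (DB N) (1, 2 * N) (0, 0)) :
    ∃ (t : V) (o : Bool) (L : List V), t ∈ bx (7 * N) 0 ∧ L ∈ Lp N ∧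
      L.length = A.length + B.length ∧ sh t L ~r (if o then (A ++ B).reverse else A ++ B) := by
  obtain ⟨a1, a2, a3, a4, a5⟩ := hA
  obtain ⟨b1, b2, b3, b4, b5⟩ := hB
  have hNz : (1 : ℤ) ≤ N := by exact_mod_cast hN
  have hbd : ∀ v ∈ A ++ B, |v.1| ≤ 4 * N ∧ -(3 * (N : ℤ)) ≤ lev v ∧ lev v ≤ 2 * N := by
    intro v hv
    rw [List.mem_append] at hv
    rcases hv with hv | hv
    · exact (a5 v hv).1
    · obtain ⟨h1, h2, h3⟩ := b5 v hv
      refine ⟨by omega, by omega, by omega⟩
  have hn : (A ++ B).Nodup := by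
    rw [List.nodup_append]
    refine ⟨a3, b3, ?_⟩
    rintro v hv w hw rfl
    exact (a5 v hv).2 (b5 v hw)
  have hAne : A ≠ [] := by
    rintro rfl
    simp at a1
  have hBne : B ≠ [] := by
    rintro rfl
    simp at b1
  have hcc : CC (A ++ B) := by
    refine ⟨?_, ?_⟩
    · rw [List.isChain_append]
      refine ⟨a4, b4, ?_⟩
      intro x hx y hy
      rw [a2, Option.mem_def, Option.some.injEq] at hx
      rw [b1, Option.mem_def, Option.some.injEq] at hy
      rw [← hx, ← hy]
      exact Or.inl ⟨rfl, Or.inr (by simp)⟩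
    · rw [List.getLast?_append_of_ne_nil _ hBne, List.head?_append_of_ne_nil _ hAne, b2, a1]
      intro x hx y hy
      rw [Option.mem_def, Option.some.injEq] at hx hy
      rw [← hx, ← hy]
      exact Or.inl ⟨rfl, Or.inr (by simp)⟩
  have hpA : ((1, 0) : V) ∈ A := List.mem_of_mem_head? a1
  have hqA : ((0, 2 * (N : ℤ)) : V) ∈ A := List.mem_of_mem_getLast? a2
  have hlen : 3 ≤ (A ++ B).length := by
    have h1 : 2 ≤ A.length := by
      rcases A with _ | ⟨x, A⟩
      · simp at hAne
      · rcases A with _ | ⟨y, A⟩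
        · simp only [List.head?_cons, Option.some.injEq, List.getLast?_singleton] at a1 a2
          rw [a1] at a2
          simp at a2
        · simp
    have h2 : 1 ≤ B.length := List.length_pos_iff.2 hBne
    rw [List.length_append]
    omega
  obtain ⟨t, o, L, ht, hev, hrot, hh, hl, hch, htop, hright⟩ := root hn hcc hlen
  have hmem : ∀ v, v ∈ L ↔ v ∈ A ++ B := by
    intro v
    rw [hrot.mem_iff]
    split_ifs
    · rw [List.mem_reverse]
    · exact Iff.rfl
  have hlenL : L.length = A.length + B.length := by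
    rw [hrot.perm.length_eq]
    split_ifs
    · rw [List.length_reverse, List.length_append]
    · rw [List.length_append]
  have hnL : L.Nodup := by
    rw [hrot.nodup_iff]
    split_ifs
    · exact List.nodup_reverse.2 hn
    · exact hn
  obtain ⟨ht1, ht2, ht3⟩ := hbd t ht
  have hsh : sh t (sh (-t) L) = L := by
    unfold sh
    rw [List.map_map]
    conv_rhs => rw [← List.map_id L]
    refine List.map_congr_left (fun v _ => ?_)
    simp
  refine ⟨t, o, sh (-t) L, ?_, ?_, ?_, ?_⟩
  · rw [mem_bx]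
    unfold cl lev at *
    simp only [Prod.fst_zero, Prod.snd_zero, abs_le] at *
    omega
  · refine ⟨?_, ?_, sh_nodup hnL, sh_chain ?_ hch, ?_, ?_⟩
    · unfold sh
      rw [List.head?_map, hh]
      simp only [Option.map_some, neg_add_cancel]
      rfl
    · unfold sh
      rw [List.getLast?_map, hl]
      simp only [Option.map_some, Option.some.injEq]
      ext <;> simp
    · rw [Int.even_iff] at *
      simp only [Prod.fst_neg, Prod.snd_neg]
      omega
    · intro v hv
      obtain ⟨w, hw, rfl⟩ := mem_sh.1 hv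
      have hw' := (hmem w).1 hw
      obtain ⟨h1, h2, h3⟩ := hbd w hw'
      have h4 := htop w hw'
      refine ⟨?_, ?_, ?_⟩
      · unfold lev at *
        simp only [Prod.fst_add, Prod.snd_add, Prod.fst_neg, Prod.snd_neg]
        omega
      · intro he
        apply hright
        have e : w = (t.1 + 1, t.2 + 1) := by
          have e1 := congrArg Prod.fst he
          have e2 := congrArg Prod.snd he
          simp only [Prod.fst_add, Prod.snd_add, Prod.fst_neg, Prod.snd_neg] at e1 e2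
          ext
          · simp only
            omega
          · simp only
            omega
        rw [← e]
        exact hw'
      · unfold cl lev at *
        simp only [Prod.fst_add, Prod.snd_add, Prod.fst_neg, Prod.snd_neg, abs_le] at *
        omega
    · refine ⟨-t + (0, 2 * (N : ℤ)), mem_sh.2 ⟨(0, 2 * (N : ℤ)), ?_, rfl⟩, ?_⟩
      · rw [hmem, List.mem_append]
        exact Or.inl hqA
      · have h1 := htop (1, 0) (by rw [List.mem_append]; exact Or.inl hpA)
        unfold lev at *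
        simp only [Prod.fst_add, Prod.snd_add, Prod.fst_neg, Prod.snd_neg] at *
        omega
  · rw [sh_length, hlenL]
  · rw [hsh]
    exact hrot

/-- comparison of the sums -/
theorem sum_le {N : ℕ} (hN : 1 ≤ N) :
    Z (DA N) (1, 0) (0, 2 * N) * Z (DB N) (1, 2 * N) (0, 0) ≤
      ((8 * (14 * N + 1) ^ 2 : ℕ) : ℝ≥0∞) * Lam N := by
  set TA := Tr (DA N) (1, 0) (0, 2 * (N : ℤ)) with hTA
  set TB := Tr (DB N) (1, 2 * (N : ℤ)) (0, 0) with hTB
  have eA : Z (DA N) (1, 0) (0, 2 * N) = ∑' l : TA, wt l.1 := by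
    rw [← tot_wt]
    unfold tot
    exact (tsum_subtype TA wt).symm
  have eB : Z (DB N) (1, 2 * N) (0, 0) = ∑' l : TB, wt l.1 := by
    rw [← tot_wt]
    unfold tot
    exact (tsum_subtype TB wt).symm
  rw [eA, eB]
  have e2 : (∑' l : TA, wt l.1) * ∑' l : TB, wt l.1 = ∑' x : TA × TB, wt x.1.1 * wt x.2.1 := by
    rw [ENNReal.tsum_prod', ← ENNReal.tsum_mul_right]
    exact tsum_congr (fun p => ENNReal.tsum_mul_left.symm)
  rw [e2]
  have hex : ∀ x : TA × TB, ∃ y : ((bx (7 * N) 0 : Finset V) × Bool) × Lp N,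
      y.2.1.length = x.1.1.length + x.2.1.length ∧
      sh y.1.1.1 y.2.1 ~r (if y.1.2 then (x.1.1 ++ x.2.1).reverse else x.1.1 ++ x.2.1) := by
    intro x
    obtain ⟨t, o, L, h1, h2, h3, h4⟩ := poly_mem hN x.1.2 x.2.2
    exact ⟨((⟨t, h1⟩, o), ⟨L, h2⟩), h3, h4⟩
  choose φ hφ1 hφ2 using hex
  have hnod : ∀ x : TA × TB, (x.1.1 ++ x.2.1).Nodup := by
    rintro ⟨⟨A, a1, a2, a3, a4, a5⟩, ⟨B, b1, b2, b3, b4, b5⟩⟩
    simp only
    rw [List.nodup_append]
    refine ⟨a3, b3, ?_⟩
    rintro v hv w hw rfl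
    exact (a5 v hv).2 (b5 v hw)
  have hhead : ∀ x : TA × TB, (x.1.1 ++ x.2.1).head? = some (1, 0) := by
    rintro ⟨⟨A, a1, a2, a3, a4, a5⟩, ⟨B, b1, b2, b3, b4, b5⟩⟩
    simp only
    rw [List.head?_append_of_ne_nil _ (by rintro rfl; simp at a1), a1]
  have hlast : ∀ x : TA × TB, (x.1.1 ++ x.2.1).getLast? = some (0, 0) := by
    rintro ⟨⟨A, a1, a2, a3, a4, a5⟩, ⟨B, b1, b2, b3, b4, b5⟩⟩
    simp only
    rw [List.getLast?_append_of_ne_nil _ (by rintro rfl; simp at b1), b2]
  have hinj : Function.Injective φ := by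
    intro x y hxy
    have h1 := hφ2 x
    have h2 := hφ2 y
    rw [← hxy] at h2
    have h3 := h1.symm.trans h2
    have h4 : x.1.1 ++ x.2.1 = y.1.1 ++ y.2.1 := by
      by_cases ho : (φ x).1.2 = true
      · rw [if_pos ho, if_pos ho] at h3
        refine List.reverse_injective (rot_eq h3 (List.nodup_reverse.2 (hnod y)) ?_)
        rw [List.head?_reverse, List.head?_reverse, hlast, hlast]
      · rw [if_neg ho, if_neg ho] at h3
        exact rot_eq h3 (hnod y) (by rw [hhead, hhead])
    obtain ⟨⟨A, a1, a2, a3, a4, a5⟩, ⟨B, b1, b2, b3, b4, b5⟩⟩ := x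
    obtain ⟨⟨A', a1', a2', a3', a4', a5'⟩, ⟨B', b1', b2', b3', b4', b5'⟩⟩ := y
    simp only at h4
    obtain ⟨A0, rfl⟩ := List.getLast?_eq_some_iff.1 a2
    obtain ⟨A0', rfl⟩ := List.getLast?_eq_some_iff.1 a2'
    rw [List.append_assoc, List.append_assoc, List.singleton_append, List.singleton_append] at h4
    have q1 : ((0, 2 * (N : ℤ)) : V) ∉ A0 := by
      intro h
      rw [List.nodup_append] at a3
      exact a3.2.2 _ h _ (by simp) rfl
    have q2 : ((0, 2 * (N : ℤ)) : V) ∉ A0' := by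
      intro h
      rw [List.nodup_append] at a3'
      exact a3'.2.2 _ h _ (by simp) rfl
    obtain ⟨rfl, rfl⟩ := cut_unique q1 q2 h4
    rfl
  have hw : ∀ x : TA × TB, wt x.1.1 * wt x.2.1 ≤ 4 * xc ^ (φ x).2.1.length := by
    intro x
    rw [hφ1 x]
    obtain ⟨⟨A, a1, a2, a3, a4, a5⟩, ⟨B, b1, b2, b3, b4, b5⟩⟩ := x
    simp only
    have hA : 1 ≤ A.length := List.length_pos_iff.2 (by rintro rfl; simp at a1)
    have hB : 1 ≤ B.length := List.length_pos_iff.2 (by rintro rfl; simp at b1)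
    unfold wt
    rw [← pow_add]
    calc xc ^ (A.length - 1 + (B.length - 1)) = xc ^ (A.length - 1 + (B.length - 1)) * 1 :=
          (mul_one _).symm
      _ ≤ xc ^ (A.length - 1 + (B.length - 1)) * (4 * xc ^ 2) := mul_le_mul_right xc_two' _
      _ = 4 * xc ^ (A.length + B.length) := by
          have e : A.length + B.length = (A.length - 1 + (B.length - 1)) + 2 := by omega
          rw [e, pow_add _ _ 2]
          ring
  calc ∑' x : TA × TB, wt x.1.1 * wt x.2.1 ≤ ∑' x : TA × TB, 4 * xc ^ (φ x).2.1.length :=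
        ENNReal.tsum_le_tsum hw
    _ = 4 * ∑' x : TA × TB, xc ^ (φ x).2.1.length := ENNReal.tsum_mul_left
    _ ≤ 4 * ∑' y : ((bx (7 * N) 0 : Finset V) × Bool) × Lp N, xc ^ y.2.1.length :=
        mul_le_mul_right (ENNReal.tsum_comp_le_tsum_of_injective hinj
          (fun y : ((bx (7 * N) 0 : Finset V) × Bool) × Lp N => xc ^ y.2.1.length)) _
    _ = 4 * ∑' _y : ((bx (7 * N) 0 : Finset V) × Bool), Lam N := by
        rw [ENNReal.tsum_prod']
        rfl
    _ = 4 * (((bx (7 * (N : ℤ)) 0).card * 2 : ℕ) * Lam N) := by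
        rw [tsum_fintype, Finset.sum_const, Finset.card_univ, Fintype.card_prod, Fintype.card_bool,
          Fintype.card_coe, nsmul_eq_mul]
    _ = _ := by
        rw [bx_card]
        have e : (2 * (7 * (N : ℤ)) + 1).toNat = 14 * N + 1 := by omega
        rw [e]
        push_cast
        ring

/-- **Polygons of height `N` have at least polynomially small weight.** -/
theorem lam_lower : ∃ C : ℕ, 1 ≤ C ∧ ∀ N : ℕ, C ≤ N → 1 ≤ ((N ^ C : ℕ) : ℝ≥0∞) * Lam N := by
  obtain ⟨C, hC, h⟩ := halves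
  refine ⟨2 * C + 1809, by omega, fun N hN => ?_⟩
  obtain ⟨h1, h2⟩ := h N (by omega)
  have hN1 : 1 ≤ N := by omega
  have hN' : (0 : ℝ) < N := by exact_mod_cast hN1
  have h3 := mul_le_mul' h1 h2
  rw [← ENNReal.ofReal_mul (by positivity), ← pow_add] at h3
  have h4 := h3.trans (sum_le hN1)
  have h5 : (8 * (14 * N + 1) ^ 2 : ℕ) ≤ N ^ 3 := by
    have e1 : 14 * N + 1 ≤ 15 * N := by omega
    have e2 : (14 * N + 1) ^ 2 ≤ (15 * N) ^ 2 := Nat.pow_le_pow_left e1 2
    calc 8 * (14 * N + 1) ^ 2 ≤ 8 * (15 * N) ^ 2 := Nat.mul_le_mul_left _ e2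
      _ = 1800 * N ^ 2 := by ring
      _ ≤ N * N ^ 2 := Nat.mul_le_mul_right _ (by omega)
      _ = N ^ 3 := by ring
  have h6 : ENNReal.ofReal ((1 / (N : ℝ)) ^ (C + C)) ≤ ((N ^ 3 : ℕ) : ℝ≥0∞) * Lam N := by
    refine h4.trans (mul_le_mul_left ?_ _)
    exact_mod_cast h5
  calc (1 : ℝ≥0∞) = ((N ^ (2 * C) : ℕ) : ℝ≥0∞) * ENNReal.ofReal ((1 / (N : ℝ)) ^ (C + C)) := by
        rw [← ENNReal.ofReal_natCast, ← ENNReal.ofReal_mul (by positivity), ← ENNReal.ofReal_one]
        congr 1
        push_cast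
        rw [div_pow, one_pow, two_mul]
        field_simp
    _ ≤ ((N ^ (2 * C) : ℕ) : ℝ≥0∞) * (((N ^ 3 : ℕ) : ℝ≥0∞) * Lam N) := mul_le_mul_right h6 _
    _ = ((N ^ (2 * C + 3) : ℕ) : ℝ≥0∞) * Lam N := by
        rw [← mul_assoc]
        congr 1
        push_cast
        rw [pow_add]
    _ ≤ _ := by
        refine mul_le_mul_left ?_ _
        have : N ^ (2 * C + 3) ≤ N ^ (2 * C + 1809) := Nat.pow_le_pow_right hN1 (by omega)
        exact_mod_cast this

end Pool.Agent.U372.PX
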